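import Mathlib

/-!
# Circuit walks on unbounded polyhedra

A polyhedron in a finite-dimensional real vector space `V` is given by finitely many inequalities
`b k ≤ a k x` with linear functionals `a k`.
-/

set_option autoImplicit false

namespace Pool.Agent.Helper57.Circ

open Module

section defs

variable {V : Type} [AddCommGroup V] [Module ℝ V] {ι : Type}

/-- The polyhedron `{x | b k ≤ a k x for all k}`. -/
def Poly (a : ι → Dual ℝ V) (b : ι → ℝ) : Set V := {x | ∀ k, b k ≤ a k x}

/-- `x` is a vertex: a feasible point at which the normals of the tight inequalities have no common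
kernel. -/
def IsVertex (a : ι → Dual ℝ V) (b : ι → ℝ) (x : V) : Prop :=
  x ∈ Poly a b ∧ ∀ h : V, (∀ k, a k x = b k → a k h = 0) → h = 0

/-- `x` and `y` are the two ends of an edge: distinct vertices such that the normals of the
inequalities tight at both points have a one-dimensional common kernel. -/
def Adjacent (a : ι → Dual ℝ V) (b : ι → ℝ) (x y : V) : Prop :=
  IsVertex a b x ∧ IsVertex a b y ∧ x ≠ y ∧
    ∀ h : V, (∀ k, a k x = b k → a k y = b k → a k h = 0) → ∃ t : ℝ, h = t • (y - x)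

/-- Circuits: nonzero directions `g` for which the support `{k | a k g ≠ 0}` is minimal among the
supports of nonzero directions. -/
def IsCircuit (a : ι → Dual ℝ V) (g : V) : Prop :=
  g ≠ 0 ∧ ∀ h : V, h ≠ 0 → (∀ k, a k g = 0 → a k h = 0) → ∀ k, a k h = 0 → a k g = 0

/-- A circuit step of maximal length from `x` to `y`. -/
def CircuitStep (a : ι → Dual ℝ V) (b : ι → ℝ) (x y : V) : Prop :=
  y ∈ Poly a b ∧ ∃ g, IsCircuit a g ∧ ∃ α : ℝ, 0 < α ∧ y = x + α • g ∧
    ∀ β : ℝ, α < β → x + β • g ∉ Poly a b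

/-- Circuit walks of length `n` from `x` to `y`. -/
def CircuitWalk (a : ι → Dual ℝ V) (b : ι → ℝ) : ℕ → V → V → Prop
  | 0, x, y => x = y
  | n + 1, x, y => ∃ z, CircuitWalk a b n x z ∧ CircuitStep a b z y

/-- The normals of the truncated polyhedron `Poly a b ∩ {x | c x ≤ β}`; the index `none` stands
for the truncating inequality `-β ≤ -c x`. -/
def truncA (a : ι → Dual ℝ V) (c : Dual ℝ V) : Option ι → Dual ℝ V
  | none => -c
  | some k => a k

/-- The right-hand sides of the truncated polyhedron. -/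
def truncB (b : ι → ℝ) (β : ℝ) : Option ι → ℝ
  | none => -β
  | some k => b k

/-- An edge path `w 0, ..., w L` of the polyhedron. -/
def EdgePath (a : ι → Dual ℝ V) (b : ι → ℝ) (L : ℕ) (w : ℕ → V) : Prop :=
  ∀ i < L, Adjacent a b (w i) (w (i + 1))

/-- The path `w 0, ..., w L` is non-revisiting: an inequality which is tight at two points of the
path is tight at all points in between. -/
def NonRevisiting (a : ι → Dual ℝ V) (b : ι → ℝ) (L : ℕ) (w : ℕ → V) : Prop :=
  ∀ k, ∀ i j l : ℕ, i ≤ j → j ≤ l → l ≤ L → a k (w i) = b k → a k (w l) = b k → a k (w j) = b k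

end defs

variable {V : Type} [AddCommGroup V] [Module ℝ V] {ι : Type}
variable {a : ι → Dual ℝ V} {b : ι → ℝ} {c : Dual ℝ V} {β : ℝ}

lemma mem_trunc {x : V} : x ∈ Poly (truncA a c) (truncB b β) ↔ x ∈ Poly a b ∧ c x ≤ β := by
  constructor
  · intro h
    refine ⟨fun k => h (some k), ?_⟩
    have : -β ≤ -(c x) := h none
    linarith
  · rintro ⟨h1, h2⟩ (_ | k)
    · change -β ≤ -(c x)
      linarith
    · exact h1 k

lemma vertex_of_trunc {x : V} (h : IsVertex (truncA a c) (truncB b β) x) (hx : c x ≠ β) :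
    IsVertex a b x := by
  refine ⟨(mem_trunc.mp h.1).1, fun g hg => h.2 g ?_⟩
  rintro (_ | k) hk
  · exfalso
    have : -(c x) = -β := hk
    exact hx (by linarith)
  · exact hg k hk

lemma trunc_of_vertex {x : V} (h : IsVertex a b x) (hx : c x ≤ β) :
    IsVertex (truncA a c) (truncB b β) x :=
  ⟨mem_trunc.mpr ⟨h.1, hx⟩, fun g hg => h.2 g fun k hk => hg (some k) hk⟩

/-- ratio test -/
lemma block [Finite ι] {x g : V} (hx : x ∈ Poly a b) (hg : ∃ k, a k g < 0) :
    ∃ α : ℝ, 0 ≤ α ∧ x + α • g ∈ Poly a b ∧ ∃ k, a k g < 0 ∧ a k (x + α • g) = b k := by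
  classical
  have := Fintype.ofFinite ι
  obtain ⟨k₁, hk₁⟩ := hg
  obtain ⟨k₀, hk₀, hmin⟩ := Finset.exists_min_image (Finset.univ.filter fun k => a k g < 0)
    (fun k => (a k x - b k) / (-(a k g))) ⟨k₁, by simpa using hk₁⟩
  have hk₀' : a k₀ g < 0 := by simpa using hk₀
  have hpos : 0 < -(a k₀ g) := by linarith
  refine ⟨(a k₀ x - b k₀) / (-(a k₀ g)), div_nonneg (by have := hx k₀; linarith) hpos.le, ?_,
    k₀, hk₀', ?_⟩
  · intro k
    rw [map_add, map_smul, smul_eq_mul]
    have hα : 0 ≤ (a k₀ x - b k₀) / (-(a k₀ g)) :=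
      div_nonneg (by have := hx k₀; linarith) hpos.le
    by_cases hk : a k g < 0
    · have h1 := hmin k (by simpa using hk)
      have hp : 0 < -(a k g) := by linarith
      rw [le_div_iff₀ hp] at h1
      nlinarith
    · push Not at hk
      have := hx k
      nlinarith [mul_nonneg hα hk]
  · have h3 : (a k₀ x - b k₀) / (-(a k₀ g)) * a k₀ g = b k₀ - a k₀ x := by
      rw [div_neg, neg_mul, div_mul_cancel₀ _ hk₀'.ne]
      ring
    rw [map_add, map_smul, smul_eq_mul, h3]
    ring

lemma circuit_of_unique {g : V} (K : ι → Prop) (hK : ∀ k, K k → a k g = 0) (hg : g ≠ 0)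
    (hu : ∀ h : V, (∀ k, K k → a k h = 0) → ∃ t : ℝ, h = t • g) : IsCircuit a g := by
  refine ⟨hg, fun h hh hsub k hk => ?_⟩
  obtain ⟨t, rfl⟩ := hu h fun k hk => hsub k (hK k hk)
  rw [map_smul, smul_eq_mul, mul_eq_zero] at hk
  rcases hk with hk | hk
  · exact absurd (by rw [hk, zero_smul]) hh
  · exact hk

/-- a step which ends in a vertex is maximal -/
lemma step_to_vertex {y w : V} (hy : y ∈ Poly a b) (hw : IsVertex a b w) (hne : y ≠ w)
    (hc : IsCircuit a (w - y)) : CircuitStep a b y w := by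
  refine ⟨hw.1, w - y, hc, 1, one_pos, by rw [one_smul]; abel, ?_⟩
  intro β hβ hmem
  apply hne
  have h0 : w - y = 0 := by
    apply hw.2
    intro k hk
    have h1 := hmem k
    have h2 := hy k
    rw [map_add, map_smul, smul_eq_mul, map_sub] at h1
    rw [map_sub]
    rw [hk] at h1 ⊢
    nlinarith
  exact (sub_eq_zero.mp h0).symm

lemma edge_step {x y : V} (h : Adjacent a b x y) : CircuitStep a b x y := by
  obtain ⟨hx, hy, hne, hu⟩ := h
  apply step_to_vertex hx.1 hy hne
  apply circuit_of_unique (fun k => a k x = b k ∧ a k y = b k)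
  · rintro k ⟨h1, h2⟩
    rw [map_sub, h1, h2, sub_self]
  · intro h
    exact hne (sub_eq_zero.mp h).symm
  · intro h hh
    exact hu h fun k h1 h2 => hh k ⟨h1, h2⟩

lemma adjacent_of_trunc {x y : V} (h : Adjacent (truncA a c) (truncB b β) x y) (hx : c x ≠ β)
    (hy : c y ≠ β) : Adjacent a b x y := by
  refine ⟨vertex_of_trunc h.1 hx, vertex_of_trunc h.2.1 hy, h.2.2.1, fun g hg => ?_⟩
  apply h.2.2.2
  rintro (_ | k) h1 h2
  · exfalso
    have : -(c x) = -β := h1
    exact hx (by linarith)
  · exact hg k h1 h2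

/-- `r` is the direction of the unbounded edge through the vertex `p` at infinity -/
structure IsRay (a : ι → Dual ℝ V) (b : ι → ℝ) (c : Dual ℝ V) (p r : V) : Prop where
  pos : 0 < c r
  tight : ∀ k, a k p = b k → a k r = 0
  unique : ∀ h : V, (∀ k, a k p = b k → a k h = 0) → ∃ t : ℝ, h = t • r
  rec_dir : ∀ k, 0 ≤ a k r

lemma IsRay.ne_zero {p r : V} (h : IsRay a b c p r) : r ≠ 0 := by
  rintro rfl
  have := h.pos
  rw [map_zero] at this
  exact lt_irrefl _ this

lemma exists_ray [Finite ι] (hV : ∀ x, IsVertex a b x → c x < β) {p : V}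
    (hp : IsVertex (truncA a c) (truncB b β) p) (hc : c p = β) : ∃ r, IsRay a b c p r := by
  have hpP := (mem_trunc.mp hp.1).1
  have h1 : ¬ IsVertex a b p := fun h => by
    have := hV p h
    rw [hc] at this
    exact lt_irrefl _ this
  have h2 : ∃ r : V, (∀ k, a k p = b k → a k r = 0) ∧ r ≠ 0 := by
    by_contra hcon
    push Not at hcon
    exact h1 ⟨hpP, hcon⟩
  obtain ⟨r0, hr0, hne⟩ := h2
  have h3 : c r0 ≠ 0 := by
    intro h
    apply hne
    apply hp.2
    rintro (_ | k) hk
    · change -(c r0) = 0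
      rw [h, neg_zero]
    · exact hr0 k hk
  obtain ⟨r, hr, hpos⟩ : ∃ r : V, (∀ k, a k p = b k → a k r = 0) ∧ 0 < c r := by
    rcases lt_or_gt_of_ne h3 with h | h
    · exact ⟨-r0, fun k hk => by rw [map_neg, hr0 k hk, neg_zero], by rw [map_neg]; linarith⟩
    · exact ⟨r0, hr0, h⟩
  have huniq : ∀ h : V, (∀ k, a k p = b k → a k h = 0) → ∃ t : ℝ, h = t • r := by
    intro h hh
    refine ⟨c h / c r, ?_⟩
    have h4 : h - (c h / c r) • r = 0 := by
      apply hp.2
      rintro (_ | k) hk
      · change -(c (h - (c h / c r) • r)) = 0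
        rw [map_sub, map_smul, smul_eq_mul, div_mul_cancel₀ _ hpos.ne', sub_self, neg_zero]
      · change a k (h - (c h / c r) • r) = 0
        rw [map_sub, map_smul, hh k hk, hr k hk, smul_zero, sub_zero]
    exact sub_eq_zero.mp h4
  refine ⟨r, hpos, hr, huniq, ?_⟩
  by_contra hcon
  push Not at hcon
  obtain ⟨α, hα, hq, k₀, hk₀, htight⟩ := block hpP hcon
  have hv : IsVertex a b (p + α • r) := by
    refine ⟨hq, fun h hh => ?_⟩
    obtain ⟨t, rfl⟩ := huniq h fun k hk => hh k (by
      rw [map_add, map_smul, hr k hk, smul_zero, add_zero, hk])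
    have h5 := hh k₀ htight
    rw [map_smul, smul_eq_mul, mul_eq_zero] at h5
    rcases h5 with h5 | h5
    · rw [h5, zero_smul]
    · exact absurd h5 hk₀.ne
  have h6 := hV _ hv
  rw [map_add, map_smul, smul_eq_mul, hc] at h6
  nlinarith [mul_nonneg hα hpos.le]

/-- hopping between neighbouring unbounded edges -/
lemma hop [Finite ι] (hu : ∃ u, IsVertex a b u) {p₁ p₂ r₁ r₂ y : V} (h₁ : IsRay a b c p₁ r₁)
    (h₂ : IsRay a b c p₂ r₂) (hadj : Adjacent (truncA a c) (truncB b β) p₁ p₂)
    (hc₁ : c p₁ = β) (hc₂ : c p₂ = β) (hy : y ∈ Poly a b) (hy₁ : ∃ s : ℝ, y = p₁ + s • r₁) :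
    ∃ y' ∈ Poly a b, (∃ s : ℝ, y' = p₂ + s • r₂) ∧ (y = y' ∨ CircuitStep a b y y') := by
  obtain ⟨s, hs⟩ := hy₁
  have hp₂ := (mem_trunc.mp hadj.2.1.1).1
  have hcr := h₂.pos
  -- the base vertex of the second edge
  have hex : ∃ k, a k (-r₂) < 0 := by
    by_contra hcon
    push Not at hcon
    obtain ⟨u, hu⟩ := hu
    apply h₂.ne_zero
    apply hu.2
    intro k _
    have h3 := hcon k
    have h4 := h₂.rec_dir k
    rw [map_neg] at h3
    linarith
  obtain ⟨τ, hτ, hz, k₀, hk₀, htight⟩ := block hp₂ hex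
  rw [map_neg] at hk₀
  have hk₀' : 0 < a k₀ r₂ := by linarith
  set z := p₂ + τ • (-r₂) with hzdef
  set q := p₁ - p₂ with hqdef
  have hcq : c q = 0 := by rw [hqdef, map_sub, hc₁, hc₂, sub_self]
  have hqW : ∀ k, a k p₁ = b k → a k p₂ = b k → a k q = 0 := fun k h3 h4 => by
    rw [hqdef, map_sub, h3, h4, sub_self]
  have hspan : ∀ h : V, (∀ k, a k p₁ = b k → a k p₂ = b k → a k h = 0) →
      ∃ t : ℝ, h = (c h / c r₂) • r₂ + t • q := by
    intro h hh
    obtain ⟨t, ht⟩ := hadj.2.2.2 (h - (c h / c r₂) • r₂) (by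
      rintro (_ | k) h3 h4
      · change -(c (h - (c h / c r₂) • r₂)) = 0
        rw [map_sub, map_smul, smul_eq_mul, div_mul_cancel₀ _ hcr.ne', sub_self, neg_zero]
      · change a k (h - (c h / c r₂) • r₂) = 0
        rw [map_sub, map_smul, hh k h3 h4, h₂.tight k h4, smul_zero, sub_zero])
    refine ⟨-t, ?_⟩
    rw [sub_eq_iff_eq_add] at ht
    rw [ht, hqdef]
    rw [show (-t) • (p₁ - p₂) = t • (p₂ - p₁) by rw [neg_smul, ← smul_neg, neg_sub]]
    have hcc : c (t • (p₂ - p₁) + (c h / c r₂) • r₂) = c h := by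
      rw [map_add, map_smul, map_smul, map_sub, hc₁, hc₂, sub_self, smul_zero, zero_add,
        smul_eq_mul, div_mul_cancel₀ _ hcr.ne']
    rw [hcc]
    abel
  -- the direction of the other edge at the base vertex
  set κ : ℝ := a k₀ q / a k₀ r₂ with hκ
  set e := q - κ • r₂ with hedef
  have hek : a k₀ e = 0 := by
    rw [hedef, map_sub, map_smul, smul_eq_mul, hκ, div_mul_cancel₀ _ hk₀'.ne', sub_self]
  have heW : ∀ k, a k p₁ = b k → a k p₂ = b k → a k e = 0 := fun k h3 h4 => by
    rw [hedef, map_sub, map_smul, hqW k h3 h4, h₂.tight k h4, smul_zero, sub_zero]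
  have hspan' : ∀ h : V, (∀ k, a k p₁ = b k → a k p₂ = b k → a k h = 0) →
      ∃ α t : ℝ, h = α • r₂ + t • e := by
    intro h hh
    obtain ⟨t, ht⟩ := hspan h hh
    refine ⟨c h / c r₂ + t * κ, t, ?_⟩
    rw [hedef, smul_sub, smul_smul, add_smul]
    conv_lhs => rw [ht]
    abel
  obtain ⟨α, t, hαt⟩ := hspan' (y - z) (by
    intro k h3 h4
    rw [map_sub, hs, hzdef, map_add, map_add, map_smul, map_smul, map_neg, h₁.tight k h3,
      h₂.tight k h4, h3, h4]
    simp)
  have hyz : y = z + α • r₂ + t • e := by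
    rw [sub_eq_iff_eq_add] at hαt
    rw [hαt]
    abel
  have hα : 0 ≤ α := by
    have h3 := hy k₀
    rw [hyz, map_add, map_add, map_smul, map_smul, htight, hek, smul_zero, add_zero,
      smul_eq_mul] at h3
    by_contra hneg
    push Not at hneg
    nlinarith
  refine ⟨z + α • r₂, ?_, ⟨α - τ, ?_⟩, ?_⟩
  · intro k
    rw [map_add, map_smul, smul_eq_mul]
    have h3 := hz k
    have h4 := mul_nonneg hα (h₂.rec_dir k)
    linarith
  · rw [hzdef, sub_smul, smul_neg]
    abel
  · by_cases hte : t • e = 0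
    · left
      rw [hyz, hte, add_zero]
    · right
      have ht0 : t ≠ 0 := by
        rintro rfl
        exact hte (zero_smul _ _)
      have hy'mem : z + α • r₂ ∈ Poly a b := by
        intro k
        rw [map_add, map_smul, smul_eq_mul]
        have h3 := hz k
        have h4 := mul_nonneg hα (h₂.rec_dir k)
        linarith
      have hgk₀ : a k₀ (-(t • e)) = 0 := by rw [map_neg, map_smul, hek, smul_zero, neg_zero]
      refine ⟨hy'mem, -(t • e), ?_, 1, one_pos, ?_, ?_⟩
      · apply circuit_of_unique (fun k => (a k p₁ = b k ∧ a k p₂ = b k) ∨ k = k₀)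
        · rintro k (⟨h3, h4⟩ | rfl)
          · rw [map_neg, map_smul, heW k h3 h4, smul_zero, neg_zero]
          · exact hgk₀
        · rwa [neg_ne_zero]
        · intro h hh
          obtain ⟨α', t', h'⟩ := hspan' h fun k h3 h4 => hh k (Or.inl ⟨h3, h4⟩)
          have h5 := hh k₀ (Or.inr rfl)
          rw [h', map_add, map_smul, map_smul, hek, smul_zero, add_zero, smul_eq_mul,
            mul_eq_zero] at h5
          have h6 : α' = 0 := by
            rcases h5 with h5 | h5
            · exact h5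
            · exact absurd h5 hk₀'.ne'
          refine ⟨-(t' / t), ?_⟩
          rw [h', h6, zero_smul, zero_add, smul_neg, neg_smul, neg_neg, smul_smul,
            div_mul_cancel₀ _ ht0]
      · rw [hyz, one_smul]
        abel
      · intro γ hγ hmem
        apply hte
        -- all tight normals at `p₂` vanish on the direction
        obtain ⟨σ, hσ⟩ := h₂.unique (t • e) (by
          intro k hk
          have e1 : a k z = b k := by
            rw [hzdef, map_add, map_smul, map_neg, h₂.tight k hk, neg_zero, smul_zero, add_zero,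
              hk]
          have h3 := hy k
          have h4 := hmem k
          rw [hyz] at h3 h4
          simp only [map_add, map_smul, map_neg, e1, h₂.tight k hk, smul_eq_mul, mul_zero,
            add_zero] at h3 h4 ⊢
          nlinarith)
        have h7 : a k₀ (t • e) = 0 := by rw [map_smul, hek, smul_zero]
        rw [hσ, map_smul, smul_eq_mul, mul_eq_zero] at h7
        rcases h7 with h7 | h7
        · rw [hσ, h7, zero_smul]
        · exact absurd h7 hk₀'.ne'

/-- the unbounded edge through `p` contains every finite neighbour of `p` -/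
lemma ray_through {p r w : V} (h : IsRay a b c p r)
    (hadj : Adjacent (truncA a c) (truncB b β) p w ∨ Adjacent (truncA a c) (truncB b β) w p)
    (hw : c w ≠ β) : ∃ s : ℝ, w = p + s • r := by
  have key : ∃ t : ℝ, r = t • (w - p) := by
    rcases hadj with hadj | hadj
    · apply hadj.2.2.2
      rintro (_ | k) h1 h2
      · exfalso
        have : -(c w) = -β := h2
        exact hw (by linarith)
      · exact h.tight k h1
    · obtain ⟨t, ht⟩ := hadj.2.2.2 r (by
        rintro (_ | k) h1 h2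
        · exfalso
          have : -(c w) = -β := h1
          exact hw (by linarith)
        · exact h.tight k h2)
      exact ⟨-t, by rw [ht, neg_smul, ← smul_neg, neg_sub]⟩
  obtain ⟨t, ht⟩ := key
  have ht0 : t ≠ 0 := by
    rintro rfl
    rw [zero_smul] at ht
    exact h.ne_zero ht
  refine ⟨t⁻¹, ?_⟩
  rw [ht, smul_smul, inv_mul_cancel₀ ht0, one_smul]
  abel

lemma exit {p r w y : V} (h : IsRay a b c p r) (hadj : Adjacent (truncA a c) (truncB b β) p w)
    (hw : c w ≠ β) (hy : y ∈ Poly a b) (hy₁ : ∃ s : ℝ, y = p + s • r) :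
    y = w ∨ CircuitStep a b y w := by
  by_cases hne : y = w
  · exact Or.inl hne
  right
  obtain ⟨s, hs⟩ := hy₁
  obtain ⟨s', hs'⟩ := ray_through h (Or.inl hadj) hw
  have hd : w - y = (s' - s) • r := by
    rw [hs, hs', sub_smul]
    abel
  have h0 : s' - s ≠ 0 := by
    intro h0
    rw [h0, zero_smul] at hd
    exact hne (sub_eq_zero.mp hd).symm
  apply step_to_vertex hy (vertex_of_trunc hadj.2.1 hw) hne
  rw [hd]
  apply circuit_of_unique (fun k => a k p = b k)
  · intro k hk
    rw [map_smul, h.tight k hk, smul_zero]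
  · exact smul_ne_zero h0 h.ne_zero
  · intro g hg
    obtain ⟨t, ht⟩ := h.unique g hg
    exact ⟨t / (s' - s), by rw [smul_smul, div_mul_cancel₀ _ h0, ht]⟩

lemma walk_step {n : ℕ} {x y z : V} (h : CircuitWalk a b n x y)
    (hs : y = z ∨ CircuitStep a b y z) : ∃ m ≤ n + 1, CircuitWalk a b m x z := by
  rcases hs with rfl | hs
  · exact ⟨n, Nat.le_succ n, h⟩
  · exact ⟨n + 1, le_rfl, y, h, hs⟩

/-- the main induction -/
lemma main [Finite ι] (hV : ∀ x, IsVertex a b x → c x < β) {L : ℕ} {w : ℕ → V}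
    (h0 : IsVertex a b (w 0)) (hpath : EdgePath (truncA a c) (truncB b β) L w) :
    ∀ i ≤ L, (c (w i) ≠ β → ∃ n, n ≤ i ∧ ((∃ j ≤ i, c (w j) = β) → n + 1 ≤ i) ∧
        CircuitWalk a b n (w 0) (w i)) ∧
      (c (w i) = β → ∀ r, IsRay a b c (w i) r → ∃ n y, n + 1 ≤ i ∧ y ∈ Poly a b ∧
        (∃ s : ℝ, y = w i + s • r) ∧ CircuitWalk a b n (w 0) y) := by
  intro i
  induction i with
  | zero =>
    intro _
    refine ⟨fun h => ⟨0, le_rfl, ?_, rfl⟩, fun h => ?_⟩
    · rintro ⟨j, hj, hj'⟩
      rw [Nat.le_zero.mp hj] at hj'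
      exact absurd hj' h
    · exact absurd h (hV _ h0).ne
  | succ i ih =>
    intro hi
    obtain ⟨ih1, ih2⟩ := ih (by omega)
    have hadj := hpath i (by omega)
    by_cases hci : c (w i) = β
    · obtain ⟨r₁, hr₁⟩ := exists_ray hV hadj.1 hci
      obtain ⟨n, y, hn, hy, hys, hwalk⟩ := ih2 hci r₁ hr₁
      refine ⟨fun h => ?_, fun h r₂ hr₂ => ?_⟩
      · obtain ⟨m, hm, hwm⟩ := walk_step hwalk (exit hr₁ hadj h hy hys)
        exact ⟨m, by omega, fun _ => by omega, hwm⟩
      · obtain ⟨y', hy', hys', hstep⟩ := hop ⟨_, h0⟩ hr₁ hr₂ hadj hci h hy hys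
        obtain ⟨m, hm, hwm⟩ := walk_step hwalk hstep
        exact ⟨m, y', by omega, hy', hys', hwm⟩
    · obtain ⟨n, hn, hn', hwalk⟩ := ih1 hci
      refine ⟨fun h => ?_, fun h r₂ hr₂ => ?_⟩
      · refine ⟨n + 1, by omega, ?_, w i, hwalk, edge_step (adjacent_of_trunc hadj hci h)⟩
        rintro ⟨j, hj, hj'⟩
        have hji : j ≤ i := by
          rcases Nat.lt_or_ge i j with h3 | h3
          · have : j = i + 1 := by omega
            rw [this] at hj'
            exact absurd hj' h
          · exact h3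
        have := hn' ⟨j, hji, hj'⟩
        omega
      · refine ⟨n, w i, by omega, (mem_trunc.mp hadj.1.1).1, ?_, hwalk⟩
        exact ray_through hr₂ (Or.inr hadj) hci

/-! ### counting -/

section count

variable [Fintype ι] [FiniteDimensional ℝ V]

open Classical in
/-- the inequalities which are tight somewhere on the path up to time `i` -/
noncomputable def Vis (a : ι → Dual ℝ V) (b : ι → ℝ) (w : ℕ → V) (i : ℕ) : Finset ι :=
  Finset.univ.filter fun k => ∃ j ≤ i, a k (w j) = b k

omit [FiniteDimensional ℝ V] in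
lemma mem_Vis {w : ℕ → V} {i : ℕ} {k : ι} : k ∈ Vis a b w i ↔ ∃ j ≤ i, a k (w j) = b k := by
  simp [Vis]

omit [FiniteDimensional ℝ V] in
lemma card_tight {x : V} (hx : IsVertex a b x) {S : Finset ι} (hS : ∀ k, a k x = b k → k ∈ S) :
    finrank ℝ V ≤ S.card := by
  let f : V →ₗ[ℝ] (S → ℝ) := LinearMap.pi fun k => a k.1
  have hf : Function.Injective f := by
    rw [injective_iff_map_eq_zero]
    intro h hh
    apply hx.2
    intro k hk
    exact congrFun hh ⟨k, hS k hk⟩
  have := LinearMap.finrank_le_finrank_of_injective hf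
  simpa using this

lemma card_Vis {L : ℕ} {w : ℕ → V} (h0 : IsVertex a b (w 0)) (hpath : EdgePath a b L w)
    (hnr : NonRevisiting a b L w) : ∀ i ≤ L, i + finrank ℝ V ≤ (Vis a b w i).card := by
  classical
  intro i
  induction i with
  | zero =>
    intro _
    rw [zero_add]
    exact card_tight h0 fun k hk => mem_Vis.mpr ⟨0, le_rfl, hk⟩
  | succ i ih =>
    intro hi
    have h1 := ih (by omega)
    have hadj := hpath i (by omega)
    obtain ⟨k, hk, hk'⟩ : ∃ k, a k (w (i + 1)) = b k ∧ a k (w i) ≠ b k := by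
      by_contra hcon
      push Not at hcon
      apply hadj.2.2.1
      have : w (i + 1) - w i = 0 := by
        apply hadj.2.1.2
        intro k hk
        rw [map_sub, hk, hcon k hk, sub_self]
      exact (sub_eq_zero.mp this).symm
    have hnot : k ∉ Vis a b w i := by
      intro h
      obtain ⟨j, hj, hj'⟩ := mem_Vis.mp h
      exact hk' (hnr k j i (i + 1) hj (Nat.le_succ i) hi hj' hk)
    have hsub : insert k (Vis a b w i) ⊆ Vis a b w (i + 1) := by
      intro k' h
      rw [Finset.mem_insert] at h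
      rw [mem_Vis]
      rcases h with rfl | h
      · exact ⟨i + 1, le_rfl, hk⟩
      · obtain ⟨j, hj, hj'⟩ := mem_Vis.mp h
        exact ⟨j, by omega, hj'⟩
    have := Finset.card_le_card hsub
    rw [Finset.card_insert_of_notMem hnot] at this
    omega

end count

/-- the theorem -/
theorem via_infinity [Fintype ι] [FiniteDimensional ℝ V]
    (hV : ∀ x, IsVertex a b x → c x < β) {L : ℕ} {w : ℕ → V} (h0 : IsVertex a b (w 0))
    (hL : IsVertex a b (w L)) (hpath : EdgePath (truncA a c) (truncB b β) L w) :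
    ∃ n, CircuitWalk a b n (w 0) (w L) ∧ n ≤ L ∧ ((∃ j ≤ L, c (w j) = β) → n + 1 ≤ L) ∧
      (NonRevisiting (truncA a c) (truncB b β) L w → n + finrank ℝ V ≤ Fintype.card ι) := by
  classical
  obtain ⟨n, hn, hn', hwalk⟩ := ((main hV h0 hpath L le_rfl).1 (hV _ hL).ne)
  refine ⟨n, hwalk, hn, hn', fun hnr => ?_⟩
  have h1 := card_Vis (trunc_of_vertex h0 (hV _ h0).le) hpath hnr L le_rfl
  by_cases hex : ∃ j ≤ L, c (w j) = β
  · have h2 := hn' hex
    have h3 := Finset.card_le_univ (Vis (truncA a c) (truncB b β) w L)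
    rw [Fintype.card_option] at h3
    omega
  · have h2 : (none : Option ι) ∉ Vis (truncA a c) (truncB b β) w L := by
      intro h
      obtain ⟨j, hj, hj'⟩ := mem_Vis.mp h
      apply hex
      refine ⟨j, hj, ?_⟩
      have : -(c (w j)) = -β := hj'
      linarith
    have h3 : Vis (truncA a c) (truncB b β) w L ⊆ Finset.univ.erase none := by
      intro k hk
      rw [Finset.mem_erase]
      exact ⟨fun h => h2 (h ▸ hk), Finset.mem_univ _⟩
    have h4 := Finset.card_le_card h3
    rw [Finset.card_erase_of_mem (Finset.mem_univ _), Finset.card_univ, Fintype.card_option] at h4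
    omega

end Pool.Agent.Helper57.Circ
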