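import Pool.Agent.Helper57.Resolution

/-!
The concrete system of maps on the cube.
-/

set_option autoImplicit false

open Set Topology Filter Real

namespace Pool.Agent.Helper57.Res

/-- unit interval -/
abbrev I : Type := unitInterval

/-- the cube -/
abbrev Cube : Type := I × I × I

/-- the phase -/
noncomputable def ph (a b : Cube) : ℝ :=
  2 * π * (dist a.2.1 b.2.1 / dist a b) +
    π * ((dist a.2.2 b.2.2 / dist a b) * (sin (π / dist a b) ^ 2 *
      sin (π * (dist a.2.1 b.2.1 / dist a b ^ 2)) ^ 2))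

/-- the maps used for the resolution -/
noncomputable def F (a b : Cube) : Circle := Circle.exp (ph a b)

lemma continuousAt_F (a b : Cube) (h : b ≠ a) : ContinuousAt (F a) b := by
  have hd : dist a b ≠ 0 := by
    rw [dist_ne_zero]
    exact h.symm
  have hd2 : dist a b ^ 2 ≠ 0 := pow_ne_zero 2 hd
  unfold F ph
  apply Circle.exp.continuous.continuousAt.comp
  have c1 : ContinuousAt (fun b : Cube => dist a b) b := by fun_prop
  have c2 : ContinuousAt (fun b : Cube => dist a.2.1 b.2.1) b := by fun_prop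
  have c3 : ContinuousAt (fun b : Cube => dist a.2.2 b.2.2) b := by fun_prop
  have c4 : ContinuousAt (fun b : Cube => dist a.2.1 b.2.1 / dist a b) b := c2.div c1 hd
  have c5 : ContinuousAt (fun b : Cube => dist a.2.2 b.2.2 / dist a b) b := c3.div c1 hd
  have c6 : ContinuousAt (fun b : Cube => π / dist a b) b := continuousAt_const.div c1 hd
  have c7 : ContinuousAt (fun b : Cube => dist a.2.1 b.2.1 / dist a b ^ 2) b :=
    c2.div (c1.pow 2) hd2
  have c8 : ContinuousAt (fun b : Cube => sin (π / dist a b) ^ 2) b :=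
    (continuous_sin.continuousAt.comp c6).pow 2
  have c9 : ContinuousAt (fun b : Cube => sin (π * (dist a.2.1 b.2.1 / dist a b ^ 2)) ^ 2) b :=
    (continuous_sin.continuousAt.comp (continuousAt_const.mul c7)).pow 2
  exact (continuousAt_const.mul c4).add (continuousAt_const.mul (c5.mul (c8.mul c9)))

/-! ### connecting two points of the cube off a third one -/

lemma exists_ne_I (t : I) : ∃ s : I, s ≠ t := exists_ne t

/-- general product lemma -/
lemma prod_conn {A B : Type} [TopologicalSpace A] [TopologicalSpace B] [T1Space A] [T1Space B]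
    [ConnectedSpace A] [ConnectedSpace B] [Nontrivial A] [Nontrivial B]
    (a p q : A × B) (hp : p ≠ a) (hq : q ≠ a) :
    ∃ K : Set (A × B), IsClosed K ∧ IsPreconnected K ∧ p ∈ K ∧ q ∈ K ∧ a ∉ K := by
  -- slices
  have hs1 : ∀ t : A, IsClosed ({t} ×ˢ (univ : Set B)) ∧ IsPreconnected ({t} ×ˢ (univ : Set B)) :=
    fun t => ⟨isClosed_singleton.prod isClosed_univ,
      isPreconnected_singleton.prod isPreconnected_univ⟩
  have hs2 : ∀ t : B, IsClosed ((univ : Set A) ×ˢ {t}) ∧ IsPreconnected ((univ : Set A) ×ˢ {t}) :=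
    fun t => ⟨isClosed_univ.prod isClosed_singleton,
      isPreconnected_univ.prod isPreconnected_singleton⟩
  obtain ⟨s, hs⟩ := exists_ne a.1
  obtain ⟨t, ht⟩ := exists_ne a.2
  -- the cross through `(s, t)` misses `a`
  set Z : Set (A × B) := ({s} ×ˢ univ) ∪ (univ ×ˢ {t}) with hZ
  have hZc : IsClosed Z := (hs1 s).1.union (hs2 t).1
  have hZp : IsPreconnected Z :=
    IsPreconnected.union (s, t) ⟨rfl, trivial⟩ ⟨trivial, rfl⟩ (hs1 s).2 (hs2 t).2
  have haZ : a ∉ Z := by
    rintro (h | h)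
    · exact hs h.1.symm
    · exact ht h.2.symm
  have step : ∀ p : A × B, p ≠ a → ∃ K : Set (A × B), IsClosed K ∧ IsPreconnected K ∧ p ∈ K ∧
      (s, t) ∈ K ∧ a ∉ K := by
    intro p hp
    by_cases h : p.1 = a.1
    · have h2 : p.2 ≠ a.2 := fun h2 => hp (Prod.ext h h2)
      refine ⟨(univ ×ˢ {p.2}) ∪ Z, (hs2 _).1.union hZc, ?_, Or.inl ⟨trivial, rfl⟩,
        Or.inr (Or.inl ⟨rfl, trivial⟩), ?_⟩
      · exact IsPreconnected.union (s, p.2) ⟨trivial, rfl⟩ (Or.inl ⟨rfl, trivial⟩) (hs2 _).2 hZp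
      · rintro (h3 | h3)
        · exact h2 h3.2.symm
        · exact haZ h3
    · refine ⟨({p.1} ×ˢ univ) ∪ Z, (hs1 _).1.union hZc, ?_, Or.inl ⟨rfl, trivial⟩,
        Or.inr (Or.inl ⟨rfl, trivial⟩), ?_⟩
      · exact IsPreconnected.union (p.1, t) ⟨rfl, trivial⟩ (Or.inr ⟨trivial, rfl⟩) (hs1 _).2 hZp
      · rintro (h3 | h3)
        · exact h h3.1.symm
        · exact haZ h3
  obtain ⟨K1, h1, h2, h3, h4, h5⟩ := step p hp
  obtain ⟨K2, h1', h2', h3', h4', h5'⟩ := step q hq
  refine ⟨K1 ∪ K2, h1.union h1', IsPreconnected.union (s, t) h4 h4' h2 h2', Or.inl h3, Or.inr h3',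
    ?_⟩
  rintro (h | h)
  · exact h5 h
  · exact h5' h

/-! ### moving inside the unit interval -/

lemma exists_sign (a : I) : ∃ σ : ℝ, |σ| = 1 ∧ ∀ t : ℝ, 0 ≤ t → t ≤ 1 / 2 →
    (a : ℝ) + σ * t ∈ Icc (0 : ℝ) 1 := by
  obtain ⟨x, hx0, hx1⟩ := a
  by_cases h : x ≤ 1 / 2
  · refine ⟨1, by simp, fun t h0 h1 => ⟨?_, ?_⟩⟩
    · simp only; linarith
    · simp only; linarith
  · refine ⟨-1, by simp, fun t h0 h1 => ⟨?_, ?_⟩⟩
    · simp only; linarith
    · simp only; linarith

/-- move from `a` by `t` -/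
noncomputable def mv (a : I) (t : ℝ) : I :=
  projIcc (0 : ℝ) 1 zero_le_one ((a : ℝ) + (exists_sign a).choose * t)

lemma continuous_mv (a : I) : Continuous (mv a) := by
  unfold mv
  exact continuous_projIcc.comp (by fun_prop)

lemma dist_mv (a : I) (t : ℝ) (h0 : 0 ≤ t) (h1 : t ≤ 1 / 2) : dist a (mv a t) = t := by
  obtain ⟨hσ, hmem⟩ := (exists_sign a).choose_spec
  have h := hmem t h0 h1
  rw [mv, projIcc_of_mem _ h, Subtype.dist_eq, Real.dist_eq]
  simp only
  rw [show (a : ℝ) - ((a : ℝ) + (exists_sign a).choose * t) = -((exists_sign a).choose * t) by ring,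
    abs_neg, abs_mul, hσ, one_mul, abs_of_nonneg h0]

lemma mv_zero (a : I) : mv a 0 = a := by
  have := dist_mv a 0 le_rfl (by norm_num)
  exact (dist_eq_zero.mp this).symm

lemma exists_phase (y : Circle) : ∃ s : ℝ, 0 ≤ s ∧ s < 1 ∧ Circle.exp (2 * π * s) = y := by
  obtain ⟨θ, rfl⟩ : ∃ θ : ℝ, Circle.exp θ = y := ⟨_, Circle.exp_arg y⟩
  refine ⟨Int.fract (θ / (2 * π)), Int.fract_nonneg _, Int.fract_lt_one _, ?_⟩
  have hpi : (2 * π : ℝ) ≠ 0 := by positivity
  have h1 : 2 * π * Int.fract (θ / (2 * π)) = θ - ⌊θ / (2 * π)⌋ * (2 * π) := by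
    rw [Int.fract]
    field_simp
  rw [h1]
  rw [Circle.exp_sub, Circle.exp_int_mul_two_pi, div_one]

end Pool.Agent.Helper57.Res
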