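import Pool.Agent.Helper57.Cube

/-!
The two geometric properties of the maps on the cube.
-/

set_option autoImplicit false

open Set Topology Filter Real

namespace Pool.Agent.Helper57.Res

/-- displaced point -/
noncomputable def pt (x : Cube) (t1 t2 t3 : ℝ) : Cube := (mv x.1 t1, mv x.2.1 t2, mv x.2.2 t3)

lemma dist_pt (x : Cube) {t1 t2 t3 : ℝ} (h1 : 0 ≤ t1) (h1' : t1 ≤ 1 / 2) (h2 : 0 ≤ t2)
    (h2' : t2 ≤ 1 / 2) (h3 : 0 ≤ t3) (h3' : t3 ≤ 1 / 2) :
    dist x (pt x t1 t2 t3) = max t1 (max t2 t3) := by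
  rw [Prod.dist_eq, Prod.dist_eq]
  simp only [pt]
  rw [dist_mv _ _ h1 h1', dist_mv _ _ h2 h2', dist_mv _ _ h3 h3']

/-- asymptotic segments -/
lemma H2 (x : Cube) (y : Circle) : ∃ L : Set Cube, IsClosed L ∧ x ∈ L ∧
    IsPreconnected (L \ {x}) ∧ x ∈ closure (L \ {x}) ∧ ∀ b ∈ L \ {x}, F x b = y := by
  obtain ⟨s, hs0, hs1, hsy⟩ := exists_phase y
  let γ : ℝ → Cube := fun t => pt x t (s * t) 0
  have hγc : Continuous γ := by
    refine Continuous.prodMk (continuous_mv _) (Continuous.prodMk ?_ continuous_const)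
    exact (continuous_mv _).comp (continuous_const.mul continuous_id)
  have hγ0 : γ 0 = x := by
    simp only [γ, pt, mul_zero, mv_zero]
  have hst : ∀ t : ℝ, 0 ≤ t → s * t ≤ t := fun t ht => by nlinarith
  have hd : ∀ t : ℝ, 0 ≤ t → t ≤ 1 / 2 → dist x (γ t) = t := by
    intro t h0 h1
    have := dist_pt x (t1 := t) (t2 := s * t) (t3 := 0) h0 h1 (by positivity)
      ((hst t h0).trans h1) le_rfl (by norm_num)
    simp only [γ]
    rw [this, max_eq_left]
    exact max_le (hst t h0) h0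
  have hne : ∀ t : ℝ, 0 < t → t ≤ 1 / 2 → γ t ≠ x := by
    intro t h0 h1 h
    have := hd t h0.le h1
    rw [h, dist_self] at this
    exact h0.ne this
  have hL : γ '' Icc 0 (1 / 2) \ {x} = γ '' Ioc 0 (1 / 2) := by
    ext b
    constructor
    · rintro ⟨⟨t, ht, rfl⟩, hb⟩
      refine ⟨t, ⟨?_, ht.2⟩, rfl⟩
      rcases ht.1.eq_or_lt with h | h
      · exfalso
        apply hb
        rw [← h, hγ0]
        rfl
      · exact h
    · rintro ⟨t, ht, rfl⟩
      exact ⟨⟨t, ⟨ht.1.le, ht.2⟩, rfl⟩, hne t ht.1 ht.2⟩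
  refine ⟨γ '' Icc 0 (1 / 2), (isCompact_Icc.image hγc).isClosed, ⟨0, by norm_num, hγ0⟩, ?_, ?_, ?_⟩
  · rw [hL]
    exact isPreconnected_Ioc.image γ hγc.continuousOn
  · rw [hL]
    have h0 : (0 : ℝ) ∈ closure (Ioc (0 : ℝ) (1 / 2)) := by
      rw [closure_Ioc (by norm_num)]
      norm_num
    have := image_closure_subset_closure_image hγc (mem_image_of_mem γ h0)
    rwa [hγ0] at this
  · rw [hL]
    rintro _ ⟨t, ht, rfl⟩
    have hdt := hd t ht.1.le ht.2
    have hv : dist x.2.1 (γ t).2.1 = s * t :=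
      dist_mv _ _ (by have := ht.1.le; positivity) ((hst t ht.1.le).trans ht.2)
    have hw : dist x.2.2 (γ t).2.2 = 0 := dist_mv _ _ le_rfl (by norm_num)
    rw [F, ph, hdt, hv, hw]
    have ht0 : t ≠ 0 := ht.1.ne'
    rw [show 2 * π * (s * t / t) + π * (0 / t * (sin (π / t) ^ 2 *
      sin (π * (s * t / t ^ 2)) ^ 2)) = 2 * π * s by
        rw [zero_div, zero_mul, mul_zero, add_zero, mul_div_assoc, div_self ht0, mul_one]]
    exact hsy

lemma sin_half (n : ℕ) : sin (π * (n + 1 / 2)) ^ 2 = 1 := by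
  have h : cos (π * (n + 1 / 2)) = 0 := by
    rw [show π * ((n : ℝ) + 1 / 2) = n * π + π / 2 by ring, cos_add_pi_div_two, sin_nat_mul_pi,
      neg_zero]
  have := sin_sq_add_cos_sq (π * (n + 1 / 2))
  rw [h] at this
  linarith

lemma sin_mul_nat (n : ℕ) : sin (π * n) = 0 := by
  rw [mul_comm]; exact sin_nat_mul_pi n

/-- the shells -/
def Dset (x : Cube) (n j : ℕ) : Set Cube :=
  {b | 1 ≤ (n + 1) * dist x b ∧ n * dist x b ≤ 1 ∧ j * dist x b ^ 2 ≤ dist x.2.1 b.2.1 ∧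
    dist x.2.1 b.2.1 ≤ (j + 1) * dist x b ^ 2}

/-- the open shells -/
def Dset' (x : Cube) (n j : ℕ) : Set Cube :=
  {b | 1 < (n + 1) * dist x b ∧ n * dist x b < 1 ∧ j * dist x b ^ 2 < dist x.2.1 b.2.1 ∧
    dist x.2.1 b.2.1 < (j + 1) * dist x b ^ 2}

lemma isClosed_Dset (x : Cube) (n j : ℕ) : IsClosed (Dset x n j) := by
  have c1 : Continuous (fun b : Cube => dist x b) := by fun_prop
  have c2 : Continuous (fun b : Cube => dist x.2.1 b.2.1) := by fun_prop
  refine (isClosed_le continuous_const (continuous_const.mul c1)).inter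
    ((isClosed_le (continuous_const.mul c1) continuous_const).inter
    ((isClosed_le (continuous_const.mul (c1.pow 2)) c2).inter
    (isClosed_le c2 (continuous_const.mul (c1.pow 2)))))

lemma isOpen_Dset' (x : Cube) (n j : ℕ) : IsOpen (Dset' x n j) := by
  have c1 : Continuous (fun b : Cube => dist x b) := by fun_prop
  have c2 : Continuous (fun b : Cube => dist x.2.1 b.2.1) := by fun_prop
  refine (isOpen_lt continuous_const (continuous_const.mul c1)).inter
    ((isOpen_lt (continuous_const.mul c1) continuous_const).inter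
    ((isOpen_lt (continuous_const.mul (c1.pow 2)) c2).inter
    (isOpen_lt c2 (continuous_const.mul (c1.pow 2)))))

lemma Dset'_subset (x : Cube) (n j : ℕ) : Dset' x n j ⊆ Dset x n j :=
  fun _ ⟨h1, h2, h3, h4⟩ => ⟨h1.le, h2.le, h3.le, h4.le⟩

lemma Dset_dist_pos {x b : Cube} {n j : ℕ} (h : b ∈ Dset x n j) : 0 < dist x b := by
  rcases (dist_nonneg (x := x) (y := b)).eq_or_lt with h0 | h0
  · have := h.1
    rw [← h0] at this
    norm_num at this
  · exact h0

/-- on a shell the main phase is close to `s` -/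
lemma Dset_phase {x b : Cube} {n j : ℕ} {s : ℝ} (hn : 1 ≤ n) (hs1 : s < 1)
    (hj1 : (j : ℝ) ≤ s * n) (hj2 : s * n < j + 1) (h : b ∈ Dset x n j) :
    |dist x.2.1 b.2.1 / dist x b - s| ≤ 2 / n := by
  have hpos := Dset_dist_pos h
  obtain ⟨h1, h2, h3, h4⟩ := h
  set ρ := dist x b with hρ
  set v := dist x.2.1 b.2.1 with hv
  have hn' : (1 : ℝ) ≤ n := by exact_mod_cast hn
  have hn0 : (0 : ℝ) < n := by linarith
  have e1 : j * ρ ≤ v / ρ := by
    rw [le_div_iff₀ hpos]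
    nlinarith
  have e2 : v / ρ ≤ (j + 1) * ρ := by
    rw [div_le_iff₀ hpos]
    nlinarith
  have hρ1 : ρ ≤ 1 / n := by
    rw [le_div_iff₀ hn0]
    linarith
  have hρ2 : 1 / (n + 1) ≤ ρ := by
    rw [div_le_iff₀ (by linarith)]
    linarith
  have hj0 : (0 : ℝ) ≤ j := Nat.cast_nonneg j
  rw [abs_le]
  constructor
  · -- lower bound
    have k1 : j * (1 / ((n : ℝ) + 1)) ≤ v / ρ := le_trans (mul_le_mul_of_nonneg_left hρ2 hj0) e1
    have k2 : s - 2 / n ≤ j * (1 / ((n : ℝ) + 1)) := by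
      rw [mul_one_div, le_div_iff₀ (by linarith)]
      have k3 : 2 / (n : ℝ) * (n + 1) = 2 + 2 / n := by field_simp
      have k4 : 0 ≤ 2 / (n : ℝ) := by positivity
      nlinarith
    linarith
  · have k1 : v / ρ ≤ (j + 1) * (1 / n) :=
      le_trans e2 (mul_le_mul_of_nonneg_left hρ1 (by linarith))
    have k2 : ((j : ℝ) + 1) * (1 / n) ≤ s + 1 / n := by
      rw [mul_one_div, div_le_iff₀ hn0]
      have : (s + 1 / n) * n = s * n + 1 := by field_simp
      rw [this]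
      linarith
    have k3 : 1 / (n : ℝ) ≤ 2 / n := by
      apply div_le_div_of_nonneg_right _ hn0.le
      norm_num
    linarith

/-- the value on the boundary of a shell -/
lemma F_boundary {x b : Cube} {n j : ℕ} (h : b ∈ Dset x n j) (h' : b ∉ Dset' x n j) :
    F x b = Circle.exp (2 * π * (dist x.2.1 b.2.1 / dist x b)) := by
  have hpos := Dset_dist_pos h
  obtain ⟨h1, h2, h3, h4⟩ := h
  set ρ := dist x b with hρ
  set v := dist x.2.1 b.2.1 with hv
  have hzero : sin (π / ρ) ^ 2 * sin (π * (v / ρ ^ 2)) ^ 2 = 0 := by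
    by_cases k1 : 1 < (n + 1) * ρ
    · by_cases k2 : n * ρ < 1
      · by_cases k3 : j * ρ ^ 2 < v
        · have k4 : ¬ v < (j + 1) * ρ ^ 2 := fun k4 => h' ⟨k1, k2, k3, k4⟩
          have k5 : v = (j + 1) * ρ ^ 2 := le_antisymm h4 (not_lt.mp k4)
          have : v / ρ ^ 2 = ((j + 1 : ℕ) : ℝ) := by
            rw [k5]
            push_cast
            field_simp
          rw [this, sin_mul_nat]
          ring
        · have k5 : v = j * ρ ^ 2 := le_antisymm (not_lt.mp k3) h3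
          have : v / ρ ^ 2 = (j : ℝ) := by
            rw [k5]
            field_simp
          rw [this, sin_mul_nat]
          ring
      · have k5 : n * ρ = 1 := le_antisymm h2 (not_lt.mp k2)
        have : π / ρ = π * n := by
          rw [div_eq_iff hpos.ne', mul_assoc, k5, mul_one]
        rw [this, sin_mul_nat]
        ring
    · have k5 : (n + 1) * ρ = 1 := le_antisymm (not_lt.mp k1) h1
      have : π / ρ = π * ((n + 1 : ℕ) : ℝ) := by
        rw [div_eq_iff hpos.ne', mul_assoc]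
        push_cast
        rw [k5, mul_one]
      rw [this, sin_mul_nat]
      ring
  rw [F, ph, hzero, mul_zero, mul_zero, add_zero]

/-- centres of the shells -/
noncomputable def ctr (x : Cube) (n j : ℕ) : Cube :=
  pt x 0 ((j + 1 / 2) * (1 / (n + 1 / 2)) ^ 2) (1 / (n + 1 / 2))

lemma ctr_props (x : Cube) {n j : ℕ} (hn : 2 ≤ n) (hj : j ≤ n) :
    dist x (ctr x n j) = 1 / (n + 1 / 2) ∧
    dist x.2.1 (ctr x n j).2.1 = (j + 1 / 2) * (1 / (n + 1 / 2)) ^ 2 ∧
    dist x.2.2 (ctr x n j).2.2 = 1 / (n + 1 / 2) := by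
  have hn' : (2 : ℝ) ≤ n := by exact_mod_cast hn
  have hj' : (j : ℝ) ≤ n := by exact_mod_cast hj
  have hj0 : (0 : ℝ) ≤ j := Nat.cast_nonneg j
  have hw : 1 / ((n : ℝ) + 1 / 2) ≤ 1 / 2 := by
    apply one_div_le_one_div_of_le (by norm_num)
    linarith
  have hw0 : 0 ≤ 1 / ((n : ℝ) + 1 / 2) := by positivity
  have hv : ((j : ℝ) + 1 / 2) * (1 / (n + 1 / 2)) ^ 2 ≤ 1 / (n + 1 / 2) := by
    have h1 : ((j : ℝ) + 1 / 2) * (1 / (n + 1 / 2)) ≤ 1 := by
      rw [mul_one_div, div_le_one (by positivity)]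
      linarith
    calc ((j : ℝ) + 1 / 2) * (1 / (n + 1 / 2)) ^ 2
        = (((j : ℝ) + 1 / 2) * (1 / (n + 1 / 2))) * (1 / (n + 1 / 2)) := by ring
      _ ≤ 1 * (1 / (n + 1 / 2)) := mul_le_mul_of_nonneg_right h1 hw0
      _ = 1 / (n + 1 / 2) := one_mul _
  have hv0 : 0 ≤ ((j : ℝ) + 1 / 2) * (1 / (n + 1 / 2)) ^ 2 := by positivity
  refine ⟨?_, ?_, ?_⟩
  · rw [ctr, dist_pt x le_rfl (by norm_num) hv0 (hv.trans hw) hw0 hw, max_eq_right hv,
      max_eq_right hw0]
  · exact dist_mv _ _ hv0 (hv.trans hw)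
  · exact dist_mv _ _ hw0 hw

lemma ctr_mem (x : Cube) {n j : ℕ} (hn : 2 ≤ n) (hj : j ≤ n) : ctr x n j ∈ Dset x n j := by
  obtain ⟨h1, h2, h3⟩ := ctr_props x hn hj
  have hn' : (2 : ℝ) ≤ n := by exact_mod_cast hn
  have hp : (0 : ℝ) < n + 1 / 2 := by linarith
  refine ⟨?_, ?_, ?_, ?_⟩
  · rw [h1, mul_one_div, le_div_iff₀ hp]
    linarith
  · rw [h1, mul_one_div, div_le_iff₀ hp]
    linarith
  · rw [h1, h2]
    apply mul_le_mul_of_nonneg_right _ (by positivity)
    linarith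
  · rw [h1, h2]
    apply mul_le_mul_of_nonneg_right _ (by positivity)
    linarith

lemma ctr_not_mem (x : Cube) {n j k i : ℕ} (hk : 2 ≤ k) (hi : i ≤ k) (hne : k ≠ n) :
    ctr x k i ∉ Dset x n j := by
  rintro ⟨h1, h2, _, _⟩
  rw [(ctr_props x hk hi).1] at h1 h2
  have hp : (0 : ℝ) < k + 1 / 2 := by positivity
  rw [mul_one_div, le_div_iff₀ hp] at h1
  rw [mul_one_div, div_le_iff₀ hp] at h2
  have a1 : (k : ℝ) < n + 1 := by linarith
  have a2 : (n : ℝ) < k + 1 := by linarith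
  have a1' : k < n + 1 := by exact_mod_cast a1
  have a2' : n < k + 1 := by exact_mod_cast a2
  omega

lemma F_ctr (x : Cube) {n j : ℕ} (hn : 2 ≤ n) (hj : j ≤ n) :
    F x (ctr x n j) =
      Circle.exp (2 * π * (dist x.2.1 (ctr x n j).2.1 / dist x (ctr x n j)) + π) := by
  obtain ⟨h1, h2, h3⟩ := ctr_props x hn hj
  have hp : (0 : ℝ) < n + 1 / 2 := by positivity
  have hr : (1 / ((n : ℝ) + 1 / 2)) ≠ 0 := by positivity
  have e1 : dist x.2.2 (ctr x n j).2.2 / dist x (ctr x n j) = 1 := by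
    rw [h1, h3, div_self hr]
  have e2 : π / dist x (ctr x n j) = π * (n + 1 / 2) := by
    rw [h1]
    field_simp
  have e3 : π * (dist x.2.1 (ctr x n j).2.1 / dist x (ctr x n j) ^ 2) = π * (j + 1 / 2) := by
    rw [h1, h2, mul_div_assoc, div_self (pow_ne_zero 2 hr), mul_one]
  rw [F, ph, e1, e2, e3, sin_half, sin_half]
  ring_nf

/-- islands -/
lemma H3 (x : Cube) (y : Circle) : ∃ W0 : Set Circle, IsOpen W0 ∧ y ∈ W0 ∧ ∀ W ∈ 𝓝 y, ∀ O ∈ 𝓝 x,
    ∃ (D D' : ℕ → Set Cube) (c : ℕ → Cube), ∀ n, IsClosed (D n) ∧ IsOpen (D' n) ∧ D' n ⊆ D n ∧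
      c n ∈ D n ∧ c n ≠ x ∧ F x (c n) ∉ W0 ∧ (∀ k, k ≠ n → c k ∉ D n) ∧
      ∀ b ∈ D n \ D' n, b ∈ O ∧ b ≠ x ∧ F x b ∈ W := by
  obtain ⟨s, hs0, hs1, hsy⟩ := exists_phase y
  refine ⟨Metric.ball y 1, Metric.isOpen_ball, Metric.mem_ball_self one_pos, ?_⟩
  intro W hW O hO
  -- continuity of the exponential
  have hexp : Continuous (fun t : ℝ => Circle.exp (2 * π * t)) := by fun_prop
  have hWb : W ∩ Metric.ball y 1 ∈ 𝓝 (Circle.exp (2 * π * s)) := by
    rw [hsy]
    exact inter_mem hW (Metric.ball_mem_nhds y one_pos)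
  obtain ⟨δ, hδ, hδW⟩ := Metric.mem_nhds_iff.mp (hexp.continuousAt.preimage_mem_nhds hWb)
  obtain ⟨ε, hε, hεO⟩ := Metric.mem_nhds_iff.mp hO
  obtain ⟨N, hN⟩ := exists_nat_gt (max (2 / δ) (1 / ε))
  have hNδ : 2 / δ < N := (le_max_left _ _).trans_lt hN
  have hNε : 1 / ε < N := (le_max_right _ _).trans_lt hN
  -- indices
  let nn : ℕ → ℕ := fun n => N + 2 + n
  let jj : ℕ → ℕ := fun n => ⌊s * (nn n : ℝ)⌋₊
  have hnn2 : ∀ n, 2 ≤ nn n := fun n => by simp only [nn]; omega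
  have hnn0 : ∀ n, (0 : ℝ) < nn n := fun n => by
    have := hnn2 n
    exact_mod_cast (by omega : 0 < nn n)
  have hnnN : ∀ n, (N : ℝ) ≤ nn n := fun n => by
    exact_mod_cast (by simp only [nn]; omega : N ≤ nn n)
  have hj1 : ∀ n, (jj n : ℝ) ≤ s * nn n := fun n =>
    Nat.floor_le (mul_nonneg hs0 (hnn0 n).le)
  have hj2 : ∀ n, s * nn n < jj n + 1 := fun n => Nat.lt_floor_add_one _
  have hjn : ∀ n, jj n ≤ nn n := fun n => by
    have h1 : (jj n : ℝ) ≤ nn n := (hj1 n).trans (by nlinarith [hnn0 n])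
    exact_mod_cast h1
  have hphase : ∀ n, ∀ b ∈ Dset x (nn n) (jj n),
      Circle.exp (2 * π * (dist x.2.1 b.2.1 / dist x b)) ∈ W ∩ Metric.ball y 1 := by
    intro n b hb
    have h1 := Dset_phase (s := s) (by have := hnn2 n; omega) hs1 (hj1 n) (hj2 n) hb
    apply hδW
    rw [Metric.mem_ball, Real.dist_eq]
    refine h1.trans_lt ?_
    rw [div_lt_iff₀ (hnn0 n)]
    rw [div_lt_iff₀ hδ] at hNδ
    have := hnnN n
    nlinarith
  refine ⟨fun n => Dset x (nn n) (jj n), fun n => Dset' x (nn n) (jj n),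
    fun n => ctr x (nn n) (jj n), fun n => ?_⟩
  refine ⟨isClosed_Dset _ _ _, isOpen_Dset' _ _ _, Dset'_subset _ _ _,
    ctr_mem x (hnn2 n) (hjn n), ?_, ?_, ?_, ?_⟩
  · intro h
    have h : ctr x (nn n) (jj n) = x := h
    have := Dset_dist_pos (ctr_mem x (hnn2 n) (hjn n))
    rw [h, dist_self] at this
    exact lt_irrefl _ this
  · rw [F_ctr x (hnn2 n) (hjn n)]
    have h1 := (hphase n _ (ctr_mem x (hnn2 n) (hjn n))).2
    set θ := 2 * π * (dist x.2.1 (ctr x (nn n) (jj n)).2.1 / dist x (ctr x (nn n) (jj n)))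
      with hθ
    have hdc : ∀ z z' : Circle, dist z z' = ‖(z : ℂ) - (z' : ℂ)‖ := fun z z' => by
      rw [← Complex.dist_eq]
      rfl
    rw [Metric.mem_ball, hdc] at h1 ⊢
    rw [not_lt]
    have h2 : ((Circle.exp (θ + π) : Circle) : ℂ) = -((Circle.exp θ : Circle) : ℂ) := by
      rw [Circle.coe_exp, Circle.coe_exp]
      push_cast
      rw [add_mul, Complex.exp_add, Complex.exp_pi_mul_I]
      ring
    rw [h2]
    have h3 : ‖(2 : ℂ) * (y : ℂ)‖ = 2 := by
      rw [norm_mul, Circle.norm_coe]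
      norm_num
    have h4 : ‖(2 : ℂ) * (y : ℂ)‖ ≤ ‖-((Circle.exp θ : Circle) : ℂ) - y‖ +
        ‖((Circle.exp θ : Circle) : ℂ) - y‖ := by
      have : (2 : ℂ) * (y : ℂ) = -((-((Circle.exp θ : Circle) : ℂ) - y) +
        (((Circle.exp θ : Circle) : ℂ) - y)) := by ring
      rw [this, norm_neg]
      exact norm_add_le _ _
    rw [h3] at h4
    linarith
  · intro k hk
    apply ctr_not_mem x (hnn2 k) (hjn k)
    simp only [nn]
    omega
  · rintro b ⟨hb, hb'⟩
    have hpos := Dset_dist_pos hb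
    refine ⟨?_, ?_, ?_⟩
    · apply hεO
      rw [Metric.mem_ball, dist_comm]
      have h2 := hb.2.1
      rw [div_lt_iff₀ hε] at hNε
      have := hnnN n
      by_contra hcon
      rw [not_lt] at hcon
      nlinarith
    · intro h
      rw [h, dist_self] at hpos
      exact lt_irrefl _ hpos
    · rw [F_boundary hb hb']
      exact (hphase n b hb).1

end Pool.Agent.Helper57.Res
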