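import Pool.Agent.Helper85.IW.Statements

set_option autoImplicit false
set_option maxSynthPendingDepth 3

/-! # Module D1: the derivative of `U` -/

open MeasureTheory Complex Filter Topology
open scoped ENNReal NNReal ComplexConjugate

noncomputable section

namespace Helper57.IW_D1

open Helper85.IW

theorem hasDerivAt_rpow_gt (p x : ℝ) (hp : 1 ≤ p) :
    HasDerivAt (fun x : ℝ => x ^ p) (p * x ^ (p - 1)) x :=
  Real.hasDerivAt_rpow_const (Or.inr hp)

theorem w2_der (p : ℝ) (hp : 2 < p) (r s : ℝ) (hr : 0 ≤ r) (hs : 0 ≤ s) :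
    HasFDerivAt (fun q : ℝ × ℝ => W2 p q.1 q.2) (lin2 (al2 p r s * r) (be2 p r s * s)) (r, s) := by
  have h1 : HasFDerivAt (fun q : ℝ × ℝ => q.1) (ContinuousLinearMap.fst ℝ ℝ ℝ) (r, s) :=
    (ContinuousLinearMap.fst ℝ ℝ ℝ).hasFDerivAt
  have h2 : HasFDerivAt (fun q : ℝ × ℝ => q.2) (ContinuousLinearMap.snd ℝ ℝ ℝ) (r, s) :=
    (ContinuousLinearMap.snd ℝ ℝ ℝ).hasFDerivAt
  have h3 := (hasDerivAt_rpow_gt p r (by linarith)).comp_hasFDerivAt (r, s) h1
  have h4 := (hasDerivAt_rpow_gt p s (by linarith)).comp_hasFDerivAt (r, s) h2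
  have h5 := (h3.const_mul (CC p ^ p)).sub h4
  have hpow : ∀ x : ℝ, 0 ≤ x → x ^ (p - 2) * x = x ^ (p - 1) := by
    intro x hx
    rcases hx.eq_or_lt with h | h
    · rw [← h, Real.zero_rpow (by linarith : p - 2 ≠ 0).symm.symm,
        Real.zero_rpow (by linarith : p - 1 ≠ 0).symm.symm]
      ring
    · rw [← Real.rpow_add_one h.ne']
      congr 1
      ring
  have hfun : (fun q : ℝ × ℝ => W2 p q.1 q.2) =
      ((fun y => CC p ^ p * ((fun x : ℝ => x ^ p) ∘ fun q : ℝ × ℝ => q.1) y) -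
        (fun x : ℝ => x ^ p) ∘ fun q : ℝ × ℝ => q.2) := rfl
  have hder : lin2 (al2 p r s * r) (be2 p r s * s) =
      CC p ^ p • (p * r ^ (p - 1)) • ContinuousLinearMap.fst ℝ ℝ ℝ -
        (p * s ^ (p - 1)) • ContinuousLinearMap.snd ℝ ℝ ℝ := by
    apply ContinuousLinearMap.ext
    intro x
    have e1 : (CC p ^ p • (p * r ^ (p - 1)) • ContinuousLinearMap.fst ℝ ℝ ℝ -
        (p * s ^ (p - 1)) • ContinuousLinearMap.snd ℝ ℝ ℝ) x =
        CC p ^ p * (p * r ^ (p - 1) * x.1) - p * s ^ (p - 1) * x.2 := rfl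
    rw [e1, lin2_apply, ← hpow r hr, ← hpow s hs]
    unfold al2 be2
    ring
  rw [hfun, hder]
  exact h5

/-- the derivative at the origin, region 1 -/
theorem w1_zero (p : ℝ) (hp : 2 < p) :
    HasFDerivWithinAt (fun q : ℝ × ℝ => W1 p q.1 q.2) (0 : ℝ × ℝ →L[ℝ] ℝ)
      {q | 0 ≤ q.1 ∧ 0 ≤ q.2} (0, 0) := by
  have hcont : Continuous (uu (1 / p)) := by
    have h8 : uu (1 / p) = fun x : ℝ => -1 + x + pf (1 / p) * (pF (1 / p) * x ^ 2 / 30 +
      41 / 1000 * x ^ 3 * (pF (1 / p) * x - 1)) := by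
      funext x
      rfl
    rw [h8]
    fun_prop
  obtain ⟨M, hM⟩ := (isCompact_Icc (a := (0 : ℝ)) (b := p)).exists_bound_of_continuousOn
    hcont.continuousOn
  have hM0 : 0 ≤ M := le_trans (norm_nonneg _) (hM 0 ⟨le_rfl, by linarith⟩)
  rw [hasFDerivWithinAt_iff_isLittleO]
  have h0 : W1 p (0 : ℝ × ℝ).1 (0 : ℝ × ℝ).2 = 0 := by
    simp only [W1, Prod.fst_zero, Prod.snd_zero, add_zero]
    rw [Real.zero_rpow (by linarith : p ≠ 0).symm.symm]
    ring
  have hlo : (fun q : ℝ × ℝ => ‖q‖ ^ p) =o[𝓝[{q | 0 ≤ q.1 ∧ 0 ≤ q.2}] (0 : ℝ × ℝ)]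
      fun q => q := by
    have h1 : (fun q : ℝ × ℝ => ‖q‖ ^ p) =o[𝓝 (0 : ℝ × ℝ)] fun q => q := by
      have h2 : (fun x : ℝ => x ^ p) =o[𝓝 (0 : ℝ)] fun x => x := by
        have h3 := (hasDerivAt_rpow_gt p 0 (by linarith)).isLittleO
        simpa [Real.zero_rpow (by linarith : p ≠ 0).symm.symm,
          Real.zero_rpow (by linarith : p - 1 ≠ 0).symm.symm] using h3
      have h4 : Tendsto (fun q : ℝ × ℝ => ‖q‖) (𝓝 0) (𝓝 0) := by
        simpa using (continuous_norm (E := ℝ × ℝ)).tendsto 0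
      have h5 := h2.comp_tendsto h4
      exact (h5.trans_isBigO (Asymptotics.isBigO_of_le _ (fun q => by simp)))
    exact h1.mono nhdsWithin_le_nhds
  have hbig : (fun q : ℝ × ℝ => W1 p q.1 q.2) =O[𝓝[{q | 0 ≤ q.1 ∧ 0 ≤ q.2}] (0 : ℝ × ℝ)]
      fun q : ℝ × ℝ => ‖q‖ ^ p := by
    apply Asymptotics.IsBigO.of_bound (|cc p| * 2 ^ p * M)
    filter_upwards [self_mem_nhdsWithin] with q hq
    obtain ⟨h1, h2⟩ := hq
    have hL : 0 ≤ q.1 + q.2 := by linarith
    have hw : p * (q.1 / (q.1 + q.2)) ∈ Set.Icc (0 : ℝ) p := by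
      constructor
      · positivity
      · have : q.1 / (q.1 + q.2) ≤ 1 := div_le_one_of_le₀ (by linarith) hL
        nlinarith
    have hle : q.1 + q.2 ≤ 2 * ‖q‖ := by
      have e1 : q.1 ≤ ‖q‖ := le_trans (le_abs_self _) (norm_fst_le q)
      have e2 : q.2 ≤ ‖q‖ := le_trans (le_abs_self _) (norm_snd_le q)
      linarith
    have hpow : (q.1 + q.2) ^ p ≤ 2 ^ p * ‖q‖ ^ p := by
      rw [← Real.mul_rpow (by norm_num) (norm_nonneg _)]
      exact Real.rpow_le_rpow hL hle (by linarith)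
    have hq0 : 0 ≤ ‖q‖ ^ p := Real.rpow_nonneg (norm_nonneg _) _
    have hLp : 0 ≤ (q.1 + q.2) ^ p := Real.rpow_nonneg hL _
    unfold W1
    rw [norm_mul, norm_mul, Real.norm_eq_abs, Real.norm_eq_abs, abs_of_nonneg hLp,
      Real.norm_eq_abs (‖q‖ ^ p), abs_of_nonneg hq0]
    calc |cc p| * (q.1 + q.2) ^ p * ‖uu (1 / p) (p * (q.1 / (q.1 + q.2)))‖
        ≤ |cc p| * (2 ^ p * ‖q‖ ^ p) * M := by
          apply mul_le_mul _ (hM _ hw) (norm_nonneg _) (by positivity)
          exact mul_le_mul_of_nonneg_left hpow (abs_nonneg _)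
      _ = |cc p| * 2 ^ p * M * ‖q‖ ^ p := by ring
  have := hbig.trans_isLittleO hlo
  refine this.congr' (Eventually.of_forall fun q => ?_) (Eventually.of_forall fun q => ?_)
  · have h0' : W1 p 0 0 = 0 := h0
    simp [h0']
  · exact (sub_zero q).symm

theorem main (_hD0 : StD0) (_hD1a : StD1a) (_hI : StI) (_hK : StK) : StD1 := by
  intro p hp z
  obtain ⟨hcc, hCC, -⟩ := _hK p hp
  have hCC0 : 0 < CC p := by linarith
  have key : ∀ r s : ℝ, 0 ≤ r → 0 ≤ s →
      HasFDerivWithinAt (fun q : ℝ × ℝ => Wf p q.1 q.2)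
        (lin2 (al p r s * r) (be p r s * s)) {q | 0 ≤ q.1 ∧ 0 ≤ q.2} (r, s) := by
    intro r s hr hs
    -- the value at the origin
    have hW1z : W1 p 0 0 = 0 := by
      simp only [W1, add_zero]
      rw [Real.zero_rpow (by linarith : p ≠ 0).symm.symm]
      ring
    have hW2z : W2 p 0 0 = 0 := by
      simp only [W2]
      rw [Real.zero_rpow (by linarith : p ≠ 0).symm.symm]
      ring
    -- agreement in region 2
    have hag : ∀ q : ℝ × ℝ, 0 ≤ q.1 → q.2 ≤ CC p * q.1 → Wf p q.1 q.2 = W2 p q.1 q.2 := by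
      intro q hq hle
      unfold Wf
      split_ifs with h
      · have he : CC p * q.1 = q.2 := le_antisymm h hle
        rcases hq.eq_or_lt with h0 | h0
        · rw [← h0] at he ⊢
          rw [mul_zero] at he
          rw [← he, hW1z, hW2z]
        · exact (_hI p hp q.1 q.2 h0 he).2.2.2.2
      · rfl
    have hag1 : ∀ q : ℝ × ℝ, CC p * q.1 ≤ q.2 → Wf p q.1 q.2 = W1 p q.1 q.2 := by
      intro q hle
      unfold Wf
      rw [if_pos hle]
    -- glueing
    have glue : ∀ L : ℝ × ℝ →L[ℝ] ℝ, CC p * r = s →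
        HasFDerivWithinAt (fun q : ℝ × ℝ => W1 p q.1 q.2) L {q | 0 ≤ q.1 ∧ 0 ≤ q.2} (r, s) →
        HasFDerivWithinAt (fun q : ℝ × ℝ => W2 p q.1 q.2) L {q | 0 ≤ q.1 ∧ 0 ≤ q.2} (r, s) →
        HasFDerivWithinAt (fun q : ℝ × ℝ => Wf p q.1 q.2) L {q | 0 ≤ q.1 ∧ 0 ≤ q.2} (r, s) := by
      intro L he h1 h2
      have g1 : HasFDerivWithinAt (fun q : ℝ × ℝ => Wf p q.1 q.2) L
          ({q | 0 ≤ q.1 ∧ 0 ≤ q.2} ∩ {q | CC p * q.1 ≤ q.2}) (r, s) := by
        apply (h1.mono Set.inter_subset_left).congr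
        · rintro q ⟨-, hq⟩
          exact hag1 q hq
        · exact hag1 (r, s) he.le
      have g2 : HasFDerivWithinAt (fun q : ℝ × ℝ => Wf p q.1 q.2) L
          ({q | 0 ≤ q.1 ∧ 0 ≤ q.2} ∩ {q | q.2 ≤ CC p * q.1}) (r, s) := by
        apply (h2.mono Set.inter_subset_left).congr
        · rintro q ⟨hq0, hq⟩
          exact hag q hq0.1 hq
        · exact hag (r, s) hr he.ge
      have g3 := g1.union g2
      apply g3.mono
      intro q hq
      rcases le_total (CC p * q.1) q.2 with h | h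
      · exact Or.inl ⟨hq, h⟩
      · exact Or.inr ⟨hq, h⟩
    rcases lt_trichotomy (CC p * r) s with hlt | heq | hgt
    · -- region 1
      have hs0 : 0 < s := lt_of_le_of_lt (by positivity) hlt
      have h1 := _hD1a p hp r s hr hs0
      have hal : al p r s = al1 p r s := by unfold al; rw [if_pos hlt.le]
      have hbe : be p r s = be1 p r s := by unfold be; rw [if_pos hlt.le]
      rw [hal, hbe]
      apply HasFDerivAt.hasFDerivWithinAt
      apply h1.congr_of_eventuallyEq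
      have hopen : IsOpen {q : ℝ × ℝ | CC p * q.1 < q.2} :=
        isOpen_lt (by fun_prop) (by fun_prop)
      filter_upwards [hopen.mem_nhds hlt] with q hq
      exact hag1 q (le_of_lt hq)
    · rcases hr.eq_or_lt with h0 | h0
      · -- the origin
        subst h0
        rw [mul_zero] at heq
        subst heq
        apply glue _ (mul_zero _)
        · have h1 := w1_zero p hp
          have e : lin2 (al p 0 0 * 0) (be p 0 0 * 0) = (0 : ℝ × ℝ →L[ℝ] ℝ) := by
            simp [lin2]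
          rw [e]
          exact h1
        · have h2 := w2_der p hp 0 0 le_rfl le_rfl
          have e : lin2 (al2 p 0 0 * 0) (be2 p 0 0 * 0) = lin2 (al p 0 0 * 0) (be p 0 0 * 0) := by
            simp
          rw [← e]
          exact h2.hasFDerivWithinAt
      · have hs0 : 0 < s := by rw [← heq]; positivity
        obtain ⟨i1, i2, -⟩ := _hI p hp r s h0 heq
        have hal : al p r s = al1 p r s := by unfold al; rw [if_pos heq.le]
        have hbe : be p r s = be1 p r s := by unfold be; rw [if_pos heq.le]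
        rw [hal, hbe]
        apply glue _ heq
        · exact (_hD1a p hp r s hr hs0).hasFDerivWithinAt
        · rw [i1, i2]
          exact (w2_der p hp r s hr hs).hasFDerivWithinAt
    · -- region 2
      have hal : al p r s = al2 p r s := by unfold al; rw [if_neg (not_le.2 hgt)]
      have hbe : be p r s = be2 p r s := by unfold be; rw [if_neg (not_le.2 hgt)]
      rw [hal, hbe]
      have h2 := w2_der p hp r s hr hs
      have hopen : IsOpen {q : ℝ × ℝ | q.2 < CC p * q.1} :=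
        isOpen_lt (by fun_prop) (by fun_prop)
      apply HasFDerivAt.hasFDerivWithinAt
      apply h2.congr_of_eventuallyEq
      filter_upwards [hopen.mem_nhds hgt] with q hq
      unfold Wf
      rw [if_neg (not_le.2 hq)]
  have h := _hD0 (fun q => Wf p q.1 q.2) z (al p ‖z.1‖ ‖z.2‖) (be p ‖z.1‖ ‖z.2‖)
    (key ‖z.1‖ ‖z.2‖ (norm_nonneg _) (norm_nonneg _))
  exact h

end Helper57.IW_D1
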