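import Pool.Agent.Helper85.IW.Statements

set_option autoImplicit false
set_option maxSynthPendingDepth 3

/-! # Module D1a: derivative in region 1 -/

open MeasureTheory Complex Filter Topology
open scoped ENNReal NNReal ComplexConjugate

noncomputable section

namespace Helper57.IW_D1a

open Helper85.IW

theorem hasDerivAt_uu (θ x : ℝ) : HasDerivAt (uu θ) (uu1 θ x) x := by
  have h1 : HasDerivAt (fun x : ℝ => x) 1 x := hasDerivAt_id x
  have h2 := h1.pow 2
  have h3 := h1.pow 3
  have h4 : HasDerivAt (fun x : ℝ => -1 + x + pf θ * (pF θ * x ^ 2 / 30 +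
      41 / 1000 * x ^ 3 * (pF θ * x - 1)))
      (1 + pf θ * (pF θ * (2 * x ^ (2 - 1) * 1) / 30 +
        (41 / 1000 * (3 * x ^ (3 - 1) * 1) * (pF θ * x - 1) +
          41 / 1000 * x ^ 3 * (pF θ * 1)))) x := by
    have h5 := (h2.const_mul (pF θ)).div_const 30
    have h6 := (h3.const_mul (41 / 1000)).mul ((h1.const_mul (pF θ)).sub_const 1)
    have h7 := (h1.const_add (-1)).add ((h5.add h6).const_mul (pf θ))
    exact h7
  have h8 : uu θ = fun x : ℝ => -1 + x + pf θ * (pF θ * x ^ 2 / 30 +
      41 / 1000 * x ^ 3 * (pF θ * x - 1)) := by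
    funext x
    rfl
  rw [h8]
  convert h4 using 1
  unfold uu1 Helper85.IW.h1
  ring

theorem main (h : StD5a) : StD1a := by
  intro p hp r s hr hs
  have hp0 : 0 < p := by linarith
  have hL : 0 < r + s := by linarith
  have ha : HasDerivAt (fun w : ℝ => cc p * uu (1 / p) (p * w))
      (cc p * (uu1 (1 / p) (p * (r / (r + s))) * p)) (r / (r + s)) := by
    have h1 : HasDerivAt (fun w : ℝ => p * w) p (r / (r + s)) := by
      simpa using (hasDerivAt_id (r / (r + s))).const_mul p
    have h2 := (hasDerivAt_uu (1 / p) (p * (r / (r + s)))).comp (r / (r + s)) h1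
    exact h2.const_mul (cc p)
  have h1 := h p _ _ r s hL ha
  have e1 : (fun q : ℝ × ℝ => W1 p q.1 q.2) = fun q : ℝ × ℝ =>
      (q.1 + q.2) ^ p * (cc p * uu (1 / p) (p * (q.1 / (q.1 + q.2)))) := by
    funext q
    unfold W1
    ring
  rw [e1]
  convert h1 using 2
  · have hpow : (r + s) ^ (p - 1) = (r + s) ^ (p - 2) * (r + s) := by
      rw [← Real.rpow_add_one hL.ne']
      congr 1
      ring
    rw [hpow]
    unfold al1 Helper85.IW.mt uu uu1 mux h0x h1x h0 Helper85.IW.h1
    have hs' : r + s ≠ 0 := hL.ne'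
    field_simp
    ring
  · have hpow : (r + s) ^ (p - 1) = (r + s) ^ (p - 2) * (r + s) := by
      rw [← Real.rpow_add_one hL.ne']
      congr 1
      ring
    rw [hpow]
    have e2 : 1 - r / (r + s) = s / (r + s) := by
      field_simp
      ring
    unfold be1
    rw [e2]
    unfold nt uu uu1 nu h0 Helper85.IW.h1
    have hs' : r + s ≠ 0 := hL.ne'
    field_simp
    ring

end Helper57.IW_D1a
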