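import Mathlib

/-!
Resolution of a compact space at every point, realised as a closed subspace of a product.
-/

set_option autoImplicit false

open Set Topology Filter

namespace Pool.Agent.Helper57.Res

variable {X Y : Type} [TopologicalSpace X] [TopologicalSpace Y]

/-- The set of all pairs `(x, h)` with `h a = f a x` for every `a ≠ x`. -/
def MSet (f : X → X → Y) : Set (X × (X → Y)) := {p | ∀ a, a ≠ p.1 → p.2 a = f a p.1}

/-- The resolution. -/
abbrev M (f : X → X → Y) : Type := MSet f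

lemma isClosed_MSet [T2Space X] [T2Space Y] (f : X → X → Y)
    (hf : ∀ a b, b ≠ a → ContinuousAt (f a) b) : IsClosed (MSet f) := by
  have h : MSet f = ⋂ a : X, {p : X × (X → Y) | p.1 ≠ a ∧ p.2 a ≠ f a p.1}ᶜ := by
    ext p
    simp only [MSet, mem_setOf_eq, mem_iInter, mem_compl_iff, not_and, not_not]
    constructor
    · intro h a ha
      exact h a (Ne.symm ha)
    · intro h a ha
      exact h a (Ne.symm ha)
  rw [h]
  refine isClosed_iInter fun a => ?_
  rw [isClosed_compl_iff, isOpen_iff_mem_nhds]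
  rintro p ⟨hp1, hp2⟩
  have c1 : ContinuousAt (fun q : X × (X → Y) => (q.2 a, f a q.1)) p := by
    apply ContinuousAt.prodMk
    · exact ((continuous_apply a).comp continuous_snd).continuousAt
    · exact ContinuousAt.comp (f := fun q : X × (X → Y) => q.1) (hf a p.1 hp1)
        continuous_fst.continuousAt
  have c2 : ContinuousAt (fun q : X × (X → Y) => q.1) p := continuous_fst.continuousAt
  have e1 : ∀ᶠ q in 𝓝 p, (q.2 a, f a q.1) ∈ {z : Y × Y | z.1 ≠ z.2} :=
    c1.eventually (isOpen_ne_fun continuous_fst continuous_snd |>.mem_nhds hp2)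
  have e2 : ∀ᶠ q in 𝓝 p, q.1 ≠ a := c2.eventually (isOpen_ne.mem_nhds hp1)
  filter_upwards [e1, e2] with q h1 h2
  exact ⟨h2, h1⟩

section basics

variable (f : X → X → Y)

/-- projection -/
def r (m : M f) : X := m.1.1

/-- coordinates -/
def g (a : X) (m : M f) : Y := m.1.2 a

lemma continuous_r : Continuous (r f) := continuous_fst.comp continuous_subtype_val

lemma continuous_g (a : X) : Continuous (g f a) :=
  (continuous_apply a).comp (continuous_snd.comp continuous_subtype_val)

lemma g_eq {a : X} {m : M f} (h : r f m ≠ a) : g f a m = f a (r f m) := m.2 a (Ne.symm h)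

open Classical in
/-- fibre inclusion -/
noncomputable def e (x : X) (y : Y) : M f :=
  ⟨(x, Function.update (fun a => f a x) x y), by
    intro a ha
    simp only at ha
    simp [Function.update_of_ne ha]⟩

lemma r_e (x : X) (y : Y) : r f (e f x y) = x := rfl

lemma g_e (x : X) (y : Y) : g f x (e f x y) = y := by
  simp [g, e]

lemma g_e_ne (x a : X) (h : a ≠ x) (y : Y) : g f a (e f x y) = f a x :=
  (e f x y).2 a h

lemma continuous_e (x : X) : Continuous (e f x) := by
  classical
  apply Continuous.subtype_mk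
  apply Continuous.prodMk continuous_const
  exact Continuous.update continuous_const x continuous_id

lemma ext_M {m m' : M f} (h1 : r f m = r f m') (h2 : g f (r f m) m = g f (r f m) m') :
    m = m' := by
  apply Subtype.ext
  apply Prod.ext
  · exact h1
  · funext a
    by_cases ha : a = r f m
    · subst ha
      exact h2
    · have h3 := g_eq f (a := a) (m := m) (Ne.symm ha)
      have h4 := g_eq f (a := a) (m := m') (by rw [← h1]; exact Ne.symm ha)
      change g f a m = g f a m'
      rw [h3, h4, h1]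

lemma eq_e (m : M f) : m = e f (r f m) (g f (r f m) m) := by
  apply ext_M
  · rfl
  · rw [g_e]

lemma fiber_eq (x : X) : (r f) ⁻¹' {x} = range (e f x) := by
  ext m
  constructor
  · intro h
    have h : r f m = x := h
    subst h
    exact ⟨_, (eq_e f m).symm⟩
  · rintro ⟨y, rfl⟩
    rfl

end basics

section connectedness

variable [CompactSpace X] [T2Space X] [CompactSpace Y] [T2Space Y] [ConnectedSpace Y]
variable (f : X → X → Y) (hf : ∀ a b, b ≠ a → ContinuousAt (f a) b)

include hf in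
lemma compactSpace_M : CompactSpace (M f) :=
  isCompact_iff_compactSpace.mp (isClosed_MSet f hf).isCompact

include hf in
lemma isPreconnected_preimage {C : Set X} (hC : IsPreconnected C) :
    IsPreconnected ((r f) ⁻¹' C) := by
  haveI := compactSpace_M f hf
  have hcl : IsClosedMap (r f) := (continuous_r f).isClosedMap
  rw [isPreconnected_closed_iff] at hC ⊢
  intro A B hA hB hAB hCA hCB
  have h1 : C ⊆ r f '' A ∪ r f '' B := by
    intro c hc
    obtain ⟨y⟩ : Nonempty Y := inferInstance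
    have : e f c y ∈ A ∪ B := hAB (by change r f (e f c y) ∈ C; exact hc)
    rcases this with h | h
    · exact Or.inl ⟨_, h, rfl⟩
    · exact Or.inr ⟨_, h, rfl⟩
  have h2 : (C ∩ r f '' A).Nonempty := by
    obtain ⟨m, hm, hmA⟩ := hCA
    exact ⟨r f m, hm, m, hmA, rfl⟩
  have h3 : (C ∩ r f '' B).Nonempty := by
    obtain ⟨m, hm, hmA⟩ := hCB
    exact ⟨r f m, hm, m, hmA, rfl⟩
  obtain ⟨c, hc, ⟨m1, hm1, hr1⟩, ⟨m2, hm2, hr2⟩⟩ := hC _ _ (hcl A hA) (hcl B hB) h1 h2 h3
  have hfib : IsPreconnected (range (e f c)) := isPreconnected_range (continuous_e f c)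
  rw [isPreconnected_closed_iff] at hfib
  have hsub : range (e f c) ⊆ (r f) ⁻¹' C := by
    rintro _ ⟨y, rfl⟩
    exact hc
  have hm1' : m1 ∈ range (e f c) := by rw [← fiber_eq]; exact hr1
  have hm2' : m2 ∈ range (e f c) := by rw [← fiber_eq]; exact hr2
  obtain ⟨m, hm, hm'⟩ := hfib A B hA hB (hsub.trans hAB) ⟨m1, hm1', hm1⟩ ⟨m2, hm2', hm2⟩
  exact ⟨m, hsub hm, hm'⟩

include hf in
lemma connectedSpace_M [ConnectedSpace X] : ConnectedSpace (M f) := by
  haveI : Nonempty (M f) := by
    obtain ⟨x⟩ : Nonempty X := inferInstance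
    obtain ⟨y⟩ : Nonempty Y := inferInstance
    exact ⟨e f x y⟩
  haveI : PreconnectedSpace (M f) := by
    constructor
    have := isPreconnected_preimage f hf (C := univ) isPreconnected_univ
    simpa using this
  exact ⟨inferInstance⟩

/-- neighbourhood base of a point of the resolution -/
lemma nhds_M (hf : ∀ a b, b ≠ a → ContinuousAt (f a) b) (m : M f) {V : Set (M f)}
    (hV : V ∈ 𝓝 m) :
    ∃ O ∈ 𝓝 (r f m), ∃ W ∈ 𝓝 (g f (r f m) m),
      ∀ m' : M f, r f m' ∈ O → g f (r f m) m' ∈ W → m' ∈ V := by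
  -- compare filters
  set F : Filter (M f) := comap (r f) (𝓝 (r f m)) ⊓ comap (g f (r f m)) (𝓝 (g f (r f m) m))
    with hF
  have key : Tendsto (fun m' : M f => m') F (𝓝 m) := by
    rw [tendsto_subtype_rng]
    rw [Prod.tendsto_iff]
    have t1 : Tendsto (r f) F (𝓝 (r f m)) := tendsto_comap.mono_left inf_le_left
    refine ⟨t1, ?_⟩
    rw [tendsto_pi_nhds]
    intro a
    by_cases ha : a = r f m
    · subst ha
      exact tendsto_comap.mono_left inf_le_right
    · have hne : r f m ≠ a := Ne.symm ha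
      have hc := hf a (r f m) hne
      have t2 : Tendsto (fun m' => f a (r f m')) F (𝓝 (f a (r f m))) := hc.tendsto.comp t1
      have e1 : ∀ᶠ m' in F, r f m' ≠ a := t1.eventually (isOpen_ne.mem_nhds hne)
      have e2 : m.1.2 a = f a (r f m) := g_eq f hne
      rw [e2]
      refine t2.congr' ?_
      filter_upwards [e1] with m' hm'
      exact (g_eq f hm').symm
  have hVF : V ∈ F := key hV
  rw [hF, mem_inf_iff] at hVF
  obtain ⟨s, hs, t, ht, hst⟩ := hVF
  rw [mem_comap] at hs ht
  obtain ⟨O, hO, hOs⟩ := hs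
  obtain ⟨W, hW, hWt⟩ := ht
  refine ⟨O, hO, W, hW, fun m' h1 h2 => ?_⟩
  rw [hst]
  exact ⟨hOs h1, hWt h2⟩

include hf in
/-- No weak cut points. -/
lemma no_weak_cut
    (H1 : ∀ a p q : X, p ≠ a → q ≠ a → ∃ K : Set X, IsClosed K ∧ IsPreconnected K ∧
      p ∈ K ∧ q ∈ K ∧ a ∉ K)
    (H2 : ∀ (x : X) (y : Y), ∃ L : Set X, IsClosed L ∧ x ∈ L ∧ IsPreconnected (L \ {x}) ∧
      x ∈ closure (L \ {x}) ∧ ∀ b ∈ L \ {x}, f x b = y)
    (m p q : M f) (hp : p ≠ m) (hq : q ≠ m) :
    ∃ K : Set (M f), IsClosed K ∧ IsConnected K ∧ p ∈ K ∧ q ∈ K ∧ m ∉ K := by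
  -- first connect every point `p ≠ m` to a point outside the fibre of `m`
  have step : ∀ p : M f, p ≠ m → ∃ K : Set (M f), IsClosed K ∧ IsPreconnected K ∧ p ∈ K ∧
      m ∉ K ∧ ∃ p' ∈ K, r f p' ≠ r f m := by
    intro p hp
    by_cases h : r f p = r f m
    · obtain ⟨L, hLc, hxL, hLp, hxcl, hLf⟩ := H2 (r f p) (g f (r f p) p)
      set x := r f p with hx
      set y := g f x p with hy
      set S : Set (M f) := (r f) ⁻¹' (L \ {x}) with hS
      have hSpre : IsPreconnected S := isPreconnected_preimage f hf hLp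
      have hKeq : ((r f) ⁻¹' L ∩ (g f x) ⁻¹' {y}) = insert p S := by
        ext m'
        constructor
        · rintro ⟨h1, h2⟩
          by_cases h3 : r f m' = x
          · left
            apply ext_M
            · exact h3
            · rw [h3]
              exact h2
          · right
            exact ⟨h1, h3⟩
        · rintro (h1 | h1)
          · subst h1
            exact ⟨hxL, rfl⟩
          · refine ⟨h1.1, ?_⟩
            have h3 : r f m' ≠ x := h1.2
            change g f x m' = y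
            rw [g_eq f h3]
            exact hLf _ h1
      have hpcl : p ∈ closure S := by
        rw [mem_closure_iff_nhds]
        intro V hV
        obtain ⟨O, hO, W, hW, hOW⟩ := nhds_M f hf p hV
        rw [mem_closure_iff_nhds] at hxcl
        obtain ⟨b, hbO, hbL⟩ := hxcl O hO
        obtain ⟨y0⟩ : Nonempty Y := inferInstance
        refine ⟨e f b y0, ?_, ?_⟩
        · apply hOW
          · exact hbO
          · have hbx : r f (e f b y0) ≠ r f p := hbL.2
            rw [g_eq f hbx]
            have : f (r f p) (r f (e f b y0)) = y := hLf b hbL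
            rw [this]
            exact mem_of_mem_nhds hW
        · exact hbL
      refine ⟨(r f) ⁻¹' L ∩ (g f x) ⁻¹' {y}, ?_, ?_, ⟨hxL, rfl⟩, ?_, ?_⟩
      · exact (hLc.preimage (continuous_r f)).inter (isClosed_singleton.preimage (continuous_g f x))
      · rw [hKeq]
        exact hSpre.subset_closure (subset_insert _ _)
          (insert_subset hpcl subset_closure)
      · rintro ⟨_, h2⟩
        apply hp
        apply ext_M
        · exact h
        · exact (show g f x m = y from h2).symm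
      · have hne : (L \ {x}).Nonempty := by
          rw [← closure_nonempty_iff]
          exact ⟨x, hxcl⟩
        obtain ⟨b, hb⟩ := hne
        refine ⟨e f b y, ?_, ?_⟩
        · rw [hKeq]
          right
          exact hb
        · rw [r_e]
          intro h4
          apply hb.2
          rw [mem_singleton_iff, h4, h]
    · refine ⟨{p}, isClosed_singleton, isPreconnected_singleton, rfl, ?_, p, rfl, h⟩
      intro h1
      exact hp h1.symm
  obtain ⟨K1, hK1c, hK1p, hpK, hmK1, p', hp', hrp'⟩ := step p hp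
  obtain ⟨K2, hK2c, hK2p, hqK, hmK2, q', hq', hrq'⟩ := step q hq
  obtain ⟨K0, hK0c, hK0p, hp0, hq0, ha0⟩ := H1 (r f m) (r f p') (r f q') hrp' hrq'
  have hK0' : IsPreconnected ((r f) ⁻¹' K0) := isPreconnected_preimage f hf hK0p
  refine ⟨K1 ∪ (r f) ⁻¹' K0 ∪ K2, ?_, ⟨⟨p, Or.inl (Or.inl hpK)⟩, ?_⟩, Or.inl (Or.inl hpK),
    Or.inr hqK, ?_⟩
  · exact (hK1c.union (hK0c.preimage (continuous_r f))).union hK2c
  · have h12 : IsPreconnected (K1 ∪ (r f) ⁻¹' K0) :=
      IsPreconnected.union p' hp' hp0 hK1p hK0'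
    exact IsPreconnected.union q' (Or.inr hq0) hq' h12 hK2p
  · rintro ((h | h) | h)
    · exact hmK1 h
    · exact ha0 h
    · exact hmK2 h

include hf in
/-- Not semi-locally connected anywhere. -/
lemma not_slc
    (H3 : ∀ (x : X) (y : Y), ∃ W0 : Set Y, IsOpen W0 ∧ y ∈ W0 ∧ ∀ W ∈ 𝓝 y, ∀ O ∈ 𝓝 x,
      ∃ (D D' : ℕ → Set X) (c : ℕ → X), ∀ n, IsClosed (D n) ∧ IsOpen (D' n) ∧ D' n ⊆ D n ∧
        c n ∈ D n ∧ c n ≠ x ∧ f x (c n) ∉ W0 ∧ (∀ k, k ≠ n → c k ∉ D n) ∧
        ∀ b ∈ D n \ D' n, b ∈ O ∧ b ≠ x ∧ f x b ∈ W)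
    (m : M f) :
    ¬ ∀ U : Set (M f), IsOpen U → m ∈ U →
          ∃ V : Set (M f), IsOpen V ∧ m ∈ V ∧ V ⊆ U ∧
            {C : Set (M f) | ∃ x ∈ Vᶜ, C = connectedComponentIn Vᶜ x}.Finite := by
  intro hslc
  obtain ⟨W0, hW0o, hyW0, HW⟩ := H3 (r f m) (g f (r f m) m)
  obtain ⟨V, hVo, hmV, hVU, hfin⟩ := hslc ((g f (r f m)) ⁻¹' W0)
    (hW0o.preimage (continuous_g f _)) hyW0
  obtain ⟨O, hO, W, hW, hOW⟩ := nhds_M f hf m (hVo.mem_nhds hmV)
  obtain ⟨D, D', c, hD⟩ := HW W hW O hO
  obtain ⟨y0⟩ : Nonempty Y := inferInstance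
  have hcV : ∀ n, e f (c n) y0 ∈ Vᶜ := by
    intro n hn
    have h1 := hVU hn
    obtain ⟨_, _, _, _, hcx, hcW, _, _⟩ := hD n
    apply hcW
    have h2 : g f (r f m) (e f (c n) y0) ∈ W0 := h1
    rwa [g_eq f (show r f (e f (c n) y0) ≠ r f m from hcx), r_e] at h2
  have hcomp : ∀ n, connectedComponentIn Vᶜ (e f (c n) y0) ⊆ (r f) ⁻¹' (D n) := by
    intro n
    obtain ⟨hDc, hD'o, hD'D, hcD, hcx, hcW, _, hbd⟩ := hD n
    have hinc : (r f) ⁻¹' (D n) ∩ Vᶜ ⊆ (r f) ⁻¹' (D' n) := by
      rintro m' ⟨h1, h2⟩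
      by_contra h3
      obtain ⟨h4, h5, h6⟩ := hbd (r f m') ⟨h1, h3⟩
      apply h2
      apply hOW m' h4
      rw [g_eq f h5]
      exact h6
    have hpre : IsPreconnected (connectedComponentIn Vᶜ (e f (c n) y0)) :=
      isPreconnected_connectedComponentIn
    have hsubV : connectedComponentIn Vᶜ (e f (c n) y0) ⊆ Vᶜ := connectedComponentIn_subset _ _
    have hmem : e f (c n) y0 ∈ connectedComponentIn Vᶜ (e f (c n) y0) :=
      mem_connectedComponentIn (hcV n)
    -- use the open cover by the preimage of D' and the complement of the preimage of D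
    by_contra hnot
    rw [not_subset] at hnot
    obtain ⟨m2, hm2, hm2D⟩ := hnot
    obtain ⟨m3, hm3, hm3a, hm3b⟩ := hpre ((r f) ⁻¹' (D' n)) ((r f) ⁻¹' (D n)ᶜ)
      (hD'o.preimage (continuous_r f)) (hDc.isOpen_compl.preimage (continuous_r f))
      (by
        intro m' hm'
        by_cases h : r f m' ∈ D n
        · left
          exact hinc ⟨h, hsubV hm'⟩
        · right
          exact h)
      ⟨_, hmem, hinc ⟨hcD, hcV n⟩⟩ ⟨m2, hm2, hm2D⟩
    exact hm3b (hD'D hm3a)
  apply Set.infinite_of_injective_forall_mem (f := fun n : ℕ =>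
    connectedComponentIn Vᶜ (e f (c n) y0)) ?_ ?_ hfin
  · intro k n hkn
    by_contra hne
    obtain ⟨_, _, _, _, _, _, hdisj, _⟩ := hD n
    apply hdisj k hne
    have h1 : e f (c k) y0 ∈ connectedComponentIn Vᶜ (e f (c k) y0) :=
      mem_connectedComponentIn (hcV k)
    have hkn' : connectedComponentIn Vᶜ (e f (c k) y0) = connectedComponentIn Vᶜ (e f (c n) y0) :=
      hkn
    rw [hkn'] at h1
    exact hcomp n h1
  · intro n
    exact ⟨_, hcV n, rfl⟩

end connectedness

end Pool.Agent.Helper57.Res
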